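import Pool.Agent.N878.F.Out
import Pool.Agent.W352.AX.LocG

/-!
# Small vertices: localisation of the outer integral on a staircase path, uniformly in a parameter
-/

set_option autoImplicit false
set_option maxHeartbeats 1000000

namespace Pool.Agent.N499.AX

open Filter Finset Topology Metric MeasureTheory
open Pool.Agent.W711.HT
open Pool.Agent.W85.HT
open Pool.Agent.N878.F
open Pool.Agent.N561 (Pth)
open Pool.Agent.W352.AX (pp_sub)
open scoped Real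

lemma dd_neg (N : ℕ) : dd N = (-1) ^ N := by
  unfold dd
  have e : Complex.I * N * π = N * (π * Complex.I) := by ring
  rw [e, Complex.exp_nat_mul, Complex.exp_pi_mul_I]

/-- the polynomial part of the exponent -/
noncomputable def pl (a : ℤ) (w : ℂ) : ℂ := Complex.I * a * w ^ 2 / (4 * π) + Complex.I * w

lemma pl_diff (a : ℤ) : Differentiable ℂ (pl a) := by
  unfold pl
  fun_prop

lemma qq_pl (a : ℤ) (G : ℂ → ℂ) (w : ℂ) : qq a G w = pl a w + G w := by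
  unfold qq pl
  ring

/-- the estimate for one value of the parameter and one `N` -/
lemma loc_pt {a : ℤ} {x₁ x₂ y₁ τ₁ : ℝ} (hx2 : 0 < x₂) (hx : x₂ ≤ x₁) (hxπ : x₁ < π)
    (hτ1 : 0 < τ₁) (hτy : τ₁ ≤ y₁) {N : ℕ} {P PL : ℂ → ℂ} (hP : Differentiable ℂ P)
    (hPL : Differentiable ℂ PL) {Φ : ℂ → ℂ} {z : ℂ} (hyz : y₁ ≤ z.im) {H : ℝ}
    (hzH : Real.exp z.im ≤ H) {δ : ℝ} (hδ : 0 < δ) (hδx : |z.re| + δ ≤ x₂)
    {V κ κ₁ κm C C' : ℝ}
    (hst : ∀ w ∈ K3 x₁ x₂ y₁ z.im τ₁, (qq a Φ w).re ≤ V - κ₁)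
    (hall : ∀ x : ℝ, |x| ≤ x₂ → (qq a Φ (x + z.im * Complex.I)).re ≤ V)
    (hout : ∀ x : ℝ, |x| ≤ x₂ → δ ≤ |x - z.re| → (qq a Φ (x + z.im * Complex.I)).re ≤ V - κ₁)
    (hκm0 : 0 < κm) (hκm1 : κm ≤ κ) (hκm2 : κm ≤ κ₁) (hκm3 : κm ≤ z.im)
    (mw : ∀ w ∈ Pth x₁ x₂ y₁ z.im τ₁, PL w ≠ 0 ∧ |Real.log ‖PL w‖ - N * (Φ w).re| ≤ κm / 4 * N)
    (hb1 : ∀ x y : ℝ, x₁ ≤ |x| → |x| ≤ π → |y| ≤ τ₁ → ‖PL (x + y * Complex.I)‖ ≤
      Real.exp (N * (V - |(a : ℝ)| * τ₁ / 2 - κ)))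
    (hb3 : ∀ x y : ℝ, |x| ≤ π → |y| ≤ 1 / N → ‖P (x + y * Complex.I) - PL (x + y * Complex.I)‖ ≤
      Real.exp (N * (V - κ)))
    (h1 : ∀ (f : ℂ → ℂ) (B : ℝ), Continuous f →
      (∀ x y : ℝ, x₁ ≤ |x| → |x| ≤ π → |y| ≤ 1 / N → ‖f (x + y * Complex.I)‖ ≤ B) →
      ‖(upp (1 / N) fun ψ => Ea a N ψ * f ψ * kr N ψ) -
        ∫ x in (-x₁)..x₁, Ea a N (x + (1 / N : ℝ) * Complex.I) *
          f (x + (1 / N : ℝ) * Complex.I) * kr N (x + (1 / N : ℝ) * Complex.I)‖ ≤ C * B)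
    (h2 : ∀ (f : ℂ → ℂ) (B1 B2 : ℝ), Continuous f →
      (∀ x y : ℝ, |x| ≤ 1 → |y| ≤ 1 / N → ‖f (x + y * Complex.I)‖ ≤ B1) →
      (∀ x y : ℝ, 1 ≤ |x| → |x| ≤ π → |y| ≤ 1 / N → ‖f (x + y * Complex.I)‖ ≤ B2) →
      ‖upp (1 / N) fun ψ => Ea a N ψ * f ψ * kr N ψ‖ ≤ C' * B1 + C' * B2)
    (h3 : (1 : ℝ) / N ≤ τ₁) (h4 : 0 < N)
    (h6 : 2 * C' + C + (2 * x₁ + 2 * H) * (8 * H) + 32 * H * x₂ + 40 * H * δ ≤
      Real.exp (κm / 4 * N)) :
    ‖(upp (1 / N) fun φ => Ea a N φ * P φ * kr N φ) - (-1) ^ N * ∫ x in (-δ)..δ,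
        2 * Complex.sin (z + x) * Complex.exp (N * pl a (z + x)) * PL (z + x)‖ ≤
        Real.exp (N * (V - κm / 2)) := by
  have hπ := Real.pi_gt_three
  have hN' : (0 : ℝ) < N := by exact_mod_cast h4
  have hinv : (0 : ℝ) < 1 / N := by positivity
  have hy1 : 0 < y₁ := lt_of_lt_of_le hτ1 hτy
  have hz0 : 0 < z.im := lt_of_lt_of_le hy1 hyz
  have hH0 : 0 < H := lt_of_lt_of_le (Real.exp_pos _) hzH
  have hx10 : 0 < x₁ := lt_of_lt_of_le hx2 hx
  have hzH' : z.im ≤ H := by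
    have := Real.add_one_le_exp z.im
    linarith
  have hzre := abs_le.1 (show |z.re| ≤ x₂ - δ by linarith)
  have hzz : (z.re : ℂ) + z.im * Complex.I = z := Complex.re_add_im z
  obtain ⟨X, hX⟩ : ∃ X : ℝ, X = Real.exp (N * (V - 3 / 4 * κm)) := ⟨_, rfl⟩
  have hX0 : 0 < X := by rw [hX]; exact Real.exp_pos _
  have hXle : ∀ e : ℝ, e ≤ V - 3 / 4 * κm → Real.exp (N * e) ≤ X := by
    intro e he
    rw [hX]
    exact Real.exp_le_exp.2 (mul_le_mul_of_nonneg_left he hN'.le)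
  have haτ : 0 ≤ |(a : ℝ)| * τ₁ / 2 := by positivity
  rw [upp_split h4 a hP.continuous hPL.continuous]
  -- bounds of the lower part on the path
  have hPb : ∀ w ∈ Pth x₁ x₂ y₁ z.im τ₁, ‖Complex.exp (N * pl a w) * PL w‖ ≤
      Real.exp (N * ((qq a Φ w).re + κm / 4)) := by
    intro w hw
    obtain ⟨k1, k2⟩ := mw w hw
    have k3 := (abs_le.1 k2).2
    have k4 : ‖PL w‖ ≤ Real.exp (N * ((Φ w).re + κm / 4)) := by
      rw [← Real.log_le_iff_le_exp (norm_pos_iff.2 k1)]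
      linarith
    rw [norm_mul, Complex.norm_exp]
    have k5 : ((N : ℂ) * pl a w).re = N * ((qq a Φ w).re - (Φ w).re) := by
      have e1 : (N : ℂ) * pl a w = ((N : ℝ) : ℂ) * (qq a Φ w - Φ w) := by
        rw [qq_pl]
        push_cast
        ring
      rw [e1, Complex.re_ofReal_mul, Complex.sub_re]
    rw [k5]
    refine (mul_le_mul_of_nonneg_left k4 (Real.exp_pos _).le).trans ?_
    rw [← Real.exp_add]
    apply Real.exp_le_exp.2
    apply le_of_eq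
    ring
  have hFb : ∀ w ∈ Pth x₁ x₂ y₁ z.im τ₁, 1 / (N : ℝ) ≤ w.im → w.im ≤ z.im →
      (qq a Φ w).re ≤ V - κ₁ → ‖Ea a N w * PL w * kr N w‖ ≤ 8 * H * X := by
    intro w hw hw1 hw2 hw3
    rw [F_norm]
    refine mul_le_mul ((pp_bd h4 hw1 hw2).trans (by linarith))
      ((hPb w hw).trans (hXle _ (by linarith))) (norm_nonneg _) (by positivity)
  -- the difference
  have t1 : ‖upp (1 / N) fun φ => Ea a N φ * (P φ - PL φ) * kr N φ‖ ≤ C' * X + C' * X := by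
    refine h2 (fun φ => P φ - PL φ) X X (hP.continuous.sub hPL.continuous) ?_ ?_
    · intro x y hx hy
      exact (hb3 x y (by linarith) hy).trans (hXle _ (by linarith))
    · intro x y _ hx hy
      exact (hb3 x y hx hy).trans (hXle _ (by linarith))
  -- the part near the ends
  have t2 := h1 PL X hPL.continuous (by
    intro x y hx1 hx2 hy
    exact (hb1 x y hx1 hx2 (hy.trans h3)).trans (hXle _ (by linarith)))
  -- the staircase
  have hd : ∀ w : ℂ, 0 < w.im → DifferentiableAt ℂ (fun w => Ea a N w * PL w * kr N w) w :=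
    fun w hw => ((Ea_diff a N w).mul (hPL w)).mul (kr_diff h4 hw)
  have t3 := stair hd hx2 hx hinv (h3.trans hτy) hyz (B := 8 * H * X) (by positivity)
    (by
      intro w hw1 hw2 hw3
      rcases le_total w.im τ₁ with h | h
      · have := low_bd (a := a) h4 (H := z.im) hxπ.le (hτy.trans hyz) hb1 hw1 hw2 h
        refine this.trans ?_
        rw [← Real.exp_add]
        have e : N * (|(a : ℝ)| * τ₁ / 2) + N * (V - |(a : ℝ)| * τ₁ / 2 - κ) = N * (V - κ) := by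
          ring
        rw [e]
        exact mul_le_mul (by linarith) (hXle (V - κ) (by linarith)) (Real.exp_pos _).le
          (by positivity)
      · exact hFb w (Or.inl ⟨hw1, h, hw3⟩) hw2 (hw3.trans hyz)
          (hst w (Or.inl ⟨hw1, h, hw3⟩)))
    (by
      intro w hw1 hw2 hw3
      exact hFb w (Or.inr (Or.inl ⟨hw1, hw2, hw3⟩)) (by rw [hw3]; exact h3.trans hτy)
        (by rw [hw3]; exact hyz) (hst w (Or.inr (Or.inl ⟨hw1, hw2, hw3⟩))))
    (by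
      intro w hw1 hw2 hw3
      exact hFb w (Or.inr (Or.inr (Or.inl ⟨hw1, hw2, hw3⟩))) ((h3.trans hτy).trans hw2) hw3
        (hst w (Or.inr (Or.inr ⟨hw1, hw2, hw3⟩))))
  -- the top
  obtain ⟨f, hf⟩ : ∃ f : ℝ → ℂ, f = fun x : ℝ => Ea a N (x + z.im * Complex.I) *
    PL (x + z.im * Complex.I) * kr N (x + z.im * Complex.I) := ⟨_, rfl⟩
  have hcl : Continuous fun x : ℝ => ((x : ℂ) + z.im * Complex.I) := by fun_prop
  have hfc : Continuous f := by
    rw [hf, continuous_iff_continuousAt]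
    intro x
    have k1 : ContinuousAt (fun w => Ea a N w * PL w * kr N w) ((x : ℂ) + z.im * Complex.I) :=
      (hd _ (by rw [xy_im]; exact hz0)).continuousAt
    exact ContinuousAt.comp (f := fun x : ℝ => ((x : ℂ) + z.im * Complex.I))
      (g := fun w => Ea a N w * PL w * kr N w) k1 hcl.continuousAt
  have hint : ∀ a b : ℝ, IntervalIntegrable f MeasureTheory.volume a b := fun a b =>
    hfc.intervalIntegrable a b
  have e2 : (∫ x in (-x₂)..x₂, f x) = (∫ x in (-x₂)..(z.re - δ), f x) +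
        (∫ x in (z.re - δ)..(z.re + δ), f x) + ∫ x in (z.re + δ)..x₂, f x := by
    rw [intervalIntegral.integral_add_adjacent_intervals (hint _ _) (hint _ _),
      intervalIntegral.integral_add_adjacent_intervals (hint _ _) (hint _ _)]
  have hmem : ∀ x : ℝ, |x| ≤ x₂ → (x : ℂ) + z.im * Complex.I ∈ Pth x₁ x₂ y₁ z.im τ₁ :=
    fun x hx => Or.inr (Or.inr (Or.inr ⟨by rw [xy_re]; exact hx, xy_im _ _⟩))
  have hbo : ∀ x : ℝ, |x| ≤ x₂ → δ ≤ |x - z.re| → ‖f x‖ ≤ 8 * H * X := by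
    intro x hx1 hx2
    rw [hf]
    exact hFb _ (hmem x hx1) (by rw [xy_im]; exact (h3.trans hτy).trans hyz) (by rw [xy_im])
      (hout x hx1 hx2)
  obtain ⟨g, hg⟩ : ∃ g : ℝ → ℂ, g = fun x : ℝ => (-1) ^ N * (2 * Complex.sin (z + x) *
    Complex.exp (N * pl a (z + x)) * PL (z + x)) := ⟨_, rfl⟩
  have hgc : Continuous g := by
    rw [hg]
    have c1 : Continuous fun x : ℝ => z + (x : ℂ) := by fun_prop
    have c2 : Continuous fun x : ℝ => PL (z + x) := hPL.continuous.comp c1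
    have c3 : Continuous fun x : ℝ => pl a (z + x) := (pl_diff a).continuous.comp c1
    exact continuous_const.mul (((continuous_const.mul (Complex.continuous_sin.comp c1)).mul
      (Complex.continuous_exp.comp (continuous_const.mul c3))).mul c2)
  have e3 : (∫ x in (z.re - δ)..(z.re + δ), f x) = ∫ x in (-δ)..δ, f (x + z.re) := by
    rw [intervalIntegral.integral_comp_add_right]
    congr 1 <;> ring
  have hbm : ∀ x : ℝ, |x| ≤ δ → ‖f (x + z.re) - g x‖ ≤ 20 * H * X := by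
    intro x hx
    obtain ⟨w, hw⟩ : ∃ w : ℂ, w = z + x := ⟨_, rfl⟩
    have hw1 : ((x + z.re : ℝ) : ℂ) + z.im * Complex.I = w := by
      rw [hw]
      nth_rewrite 3 [← hzz]
      push_cast
      ring
    have hx3 : |x + z.re| ≤ x₂ := by
      have := abs_add_le x z.re
      linarith
    have hwim : w.im = z.im := by
      rw [hw]; simp
    have k1 : f (x + z.re) - g x = (-1) ^ N * ((pp N w - 2 * Complex.sin w) *
        (Complex.exp (N * pl a w) * PL w)) := by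
      rw [hf, hg]
      show Ea a N (((x + z.re : ℝ) : ℂ) + z.im * Complex.I) *
        PL (((x + z.re : ℝ) : ℂ) + z.im * Complex.I) *
        kr N (((x + z.re : ℝ) : ℂ) + z.im * Complex.I) - (-1) ^ N * (2 * Complex.sin (z + x) *
        Complex.exp (N * pl a (z + x)) * PL (z + x)) = _
      rw [hw1, ← hw]
      have e1 : Ea a N w * PL w * kr N w = (Ea a N w * kr N w) * PL w := by ring
      have e4 : Ea a N w * kr N w = (-1) ^ N * (pp N w * Complex.exp (N * pl a w)) := by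
        rw [Ea_kr, dd_neg]
        rfl
      rw [e1, e4]
      ring
    have hun : ‖uu N w‖ = Real.exp (-(N * z.im)) := by rw [norm_uu, hwim]
    have h4' : (1 : ℝ) / N ≤ z.im := (h3.trans hτy).trans hyz
    have hu2 : ‖uu N w‖ ≤ 1 / 2 := by
      rw [hun]
      have m1 : (1 : ℝ) ≤ N * z.im := by
        rw [div_le_iff₀ hN'] at h4'
        linarith
      have m2 : Real.exp (-(N * z.im)) ≤ Real.exp (-1) := Real.exp_le_exp.2 (by linarith)
      have m3 : Real.exp (-1) ≤ 1 / 2 := by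
        rw [Real.exp_neg, ← one_div]
        apply one_div_le_one_div_of_le (by norm_num)
        have := Real.add_one_le_exp (1 : ℝ)
        linarith
      linarith
    have k2 := pp_sub (N := N) (w := w) (τ := z.im) (by rw [hwim]; exact hz0.le) (by rw [hwim]) hu2
    rw [hun] at k2
    have k3 := hPb w (by rw [← hw1]; exact hmem _ hx3)
    have k4 : (qq a Φ w).re ≤ V := by
      rw [← hw1]
      exact hall _ hx3
    rw [k1, norm_mul, norm_pow, norm_neg, norm_one, one_pow, one_mul, norm_mul]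
    refine (mul_le_mul k2 k3 (norm_nonneg _) (by positivity)).trans ?_
    have k6 : 20 * Real.exp z.im * Real.exp (-(N * z.im)) *
        Real.exp (N * ((qq a Φ w).re + κm / 4)) =
        20 * Real.exp z.im * Real.exp (N * ((qq a Φ w).re + κm / 4 - z.im)) := by
      have : Real.exp (N * ((qq a Φ w).re + κm / 4 - z.im)) =
          Real.exp (-(N * z.im)) * Real.exp (N * ((qq a Φ w).re + κm / 4)) := by
        rw [← Real.exp_add]
        congr 1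
        ring
      rw [this]
      ring
    rw [k6]
    exact mul_le_mul (by linarith) (hXle _ (by linarith)) (Real.exp_pos _).le (by positivity)
  -- the parts
  have b3 : ‖∫ x in (-x₂)..(z.re - δ), f x‖ ≤ 8 * H * X * (2 * x₂) := by
    refine (intervalIntegral.norm_integral_le_of_norm_le_const (C := 8 * H * X) (by
      intro x hx
      rw [Set.uIoc_of_le (by linarith [hzre.1])] at hx
      refine hbo x (abs_le.2 ⟨hx.1.le, by linarith [hx.2, hzre.2]⟩) ?_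
      rw [abs_of_nonpos (by linarith [hx.2])]
      linarith [hx.2])).trans ?_
    apply mul_le_mul_of_nonneg_left _ (by positivity)
    rw [abs_of_nonneg (by linarith [hzre.1])]
    linarith [hzre.2]
  have b4 : ‖∫ x in (z.re + δ)..x₂, f x‖ ≤ 8 * H * X * (2 * x₂) := by
    refine (intervalIntegral.norm_integral_le_of_norm_le_const (C := 8 * H * X) (by
      intro x hx
      rw [Set.uIoc_of_le (by linarith [hzre.2])] at hx
      refine hbo x (abs_le.2 ⟨by linarith [hx.1, hzre.1], hx.2⟩) ?_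
      rw [abs_of_nonneg (by linarith [hx.1])]
      linarith [hx.1])).trans ?_
    apply mul_le_mul_of_nonneg_left _ (by positivity)
    rw [abs_of_nonneg (by linarith [hzre.2])]
    linarith [hzre.1]
  have b5 : ‖(∫ x in (-δ)..δ, f (x + z.re)) - ∫ x in (-δ)..δ, g x‖ ≤ 20 * H * X * (2 * δ) := by
    have hfc2 : Continuous fun x : ℝ => f (x + z.re) := hfc.comp (by fun_prop)
    rw [← intervalIntegral.integral_sub (hfc2.intervalIntegrable _ _)
      (hgc.intervalIntegrable _ _)]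
    refine (intervalIntegral.norm_integral_le_of_norm_le_const (C := 20 * H * X) (by
      intro x hx
      rw [Set.uIoc_of_le (by linarith)] at hx
      exact hbm x (abs_le.2 ⟨hx.1.le, hx.2⟩))).trans ?_
    apply mul_le_mul_of_nonneg_left _ (by positivity)
    rw [abs_of_nonneg (by linarith)]
    linarith
  have e4 : (-1 : ℂ) ^ N * ∫ x in (-δ)..δ, 2 * Complex.sin (z + x) *
      Complex.exp (N * pl a (z + x)) * PL (z + x) = ∫ x in (-δ)..δ, g x := by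
    rw [hg, ← intervalIntegral.integral_const_mul]
  have e5 : (∫ x in (-x₂)..x₂, (fun w => Ea a N w * PL w * kr N w) (x + z.im * Complex.I)) =
      ∫ x in (-x₂)..x₂, f x := by rw [hf]
  rw [e4]
  rw [e5, e2, e3] at t3
  obtain ⟨D0, hD0⟩ : ∃ D0 : ℂ, D0 = upp (1 / N) fun φ => Ea a N φ * (P φ - PL φ) * kr N φ :=
    ⟨_, rfl⟩
  obtain ⟨D1, hD1⟩ : ∃ D1 : ℂ, D1 = upp (1 / N) fun φ => Ea a N φ * PL φ * kr N φ := ⟨_, rfl⟩
  obtain ⟨D2, hD2⟩ : ∃ D2 : ℂ, D2 = ∫ x in (-x₁)..x₁, Ea a N (x + (1 / N : ℝ) * Complex.I) *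
    PL (x + (1 / N : ℝ) * Complex.I) * kr N (x + (1 / N : ℝ) * Complex.I) := ⟨_, rfl⟩
  obtain ⟨T2, hT2⟩ : ∃ T : ℂ, T = ∫ x in (-x₂)..(z.re - δ), f x := ⟨_, rfl⟩
  obtain ⟨T3, hT3⟩ : ∃ T : ℂ, T = ∫ x in (-δ)..δ, f (x + z.re) := ⟨_, rfl⟩
  obtain ⟨T4, hT4⟩ : ∃ T : ℂ, T = ∫ x in (z.re + δ)..x₂, f x := ⟨_, rfl⟩
  obtain ⟨T6, hT6⟩ : ∃ T : ℂ, T = ∫ x in (-δ)..δ, g x := ⟨_, rfl⟩
  rw [← hT2, ← hT3, ← hT4] at t3
  have t3' : ‖D2 - (T2 + T3 + T4)‖ ≤ (2 * x₁ + 2 * z.im) * (8 * H * X) := by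
    rw [hD2]
    exact t3
  rw [← hD0] at t1 ⊢
  rw [← hD1] at t2 ⊢
  rw [← hD2] at t2
  rw [← hT2] at b3
  rw [← hT4] at b4
  rw [← hT3, ← hT6] at b5
  rw [← hT6]
  have e6 : D0 + D1 - T6 = D0 + ((D1 - D2) + ((D2 - (T2 + T3 + T4)) + (T2 + ((T3 - T6) + T4)))) := by
    ring
  rw [e6]
  have k1 := norm_add_le D0 ((D1 - D2) + ((D2 - (T2 + T3 + T4)) + (T2 + ((T3 - T6) + T4))))
  have k2 := norm_add_le (D1 - D2) ((D2 - (T2 + T3 + T4)) + (T2 + ((T3 - T6) + T4)))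
  have k3 := norm_add_le (D2 - (T2 + T3 + T4)) (T2 + ((T3 - T6) + T4))
  have k4 := norm_add_le T2 ((T3 - T6) + T4)
  have k5 := norm_add_le (T3 - T6) T4
  have k6 := mul_le_mul_of_nonneg_right h6 hX0.le
  have k7 : Real.exp (κm / 4 * N) * X = Real.exp (N * (V - κm / 2)) := by
    rw [hX, ← Real.exp_add]
    congr 1
    ring
  rw [k7] at k6
  have k8 : (2 * C' + C + (2 * x₁ + 2 * H) * (8 * H) + 32 * H * x₂ + 40 * H * δ) * X =
      (C' * X + C' * X) + C * X + (2 * x₁ + 2 * H) * (8 * H * X) + 8 * H * X * (2 * x₂) +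
      8 * H * X * (2 * x₂) + 20 * H * X * (2 * δ) := by ring
  rw [k8] at k6
  have k9 : (2 * x₁ + 2 * z.im) * (8 * H * X) ≤ (2 * x₁ + 2 * H) * (8 * H * X) :=
    mul_le_mul_of_nonneg_right (by linarith) (by positivity)
  linarith

/-- the union of the paths is compact -/
lemma T_compact {x₁ x₂ y₁ τ₁ : ℝ} (hx : x₂ ≤ x₁) (hτ1 : 0 < τ₁) (hτy : τ₁ ≤ y₁) {K : Set ℂ}
    (hK : IsCompact K) {z : ℂ → ℂ} (hzc : ContinuousOn z K) (hyz : ∀ p ∈ K, y₁ ≤ (z p).im) :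
    IsCompact {x : ℂ × ℂ | x.1 ∈ K ∧ x.2 ∈ Pth x₁ x₂ y₁ (z x.1).im τ₁} := by
  obtain ⟨M, hM⟩ := hK.exists_bound_of_continuousOn hzc
  have hMK : ∀ p ∈ K, (z p).im ≤ M := fun p hp =>
    (le_abs_self _).trans ((Complex.abs_im_le_norm _).trans (hM p hp))
  have hKI : IsCompact (K ×ˢ Kq 0 x₁ M) := hK.prod (Kq_compact _ _ _)
  obtain ⟨G, hG⟩ : ∃ G : Set (ℝ × ℝ × ℝ), G = {v | (v.1 = x₁ ∧ τ₁ ≤ v.2.1 ∧ v.2.1 ≤ y₁) ∨
    (x₂ ≤ v.1 ∧ v.1 ≤ x₁ ∧ v.2.1 = y₁) ∨ (v.1 = x₂ ∧ y₁ ≤ v.2.1 ∧ v.2.1 ≤ v.2.2) ∨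
    (v.1 ≤ x₂ ∧ v.2.1 = v.2.2)} := ⟨_, rfl⟩
  have hGc : IsClosed G := by
    rw [hG]
    have r1 : Continuous fun v : ℝ × ℝ × ℝ => v.1 := by fun_prop
    have r2 : Continuous fun v : ℝ × ℝ × ℝ => v.2.1 := by fun_prop
    have r3 : Continuous fun v : ℝ × ℝ × ℝ => v.2.2 := by fun_prop
    have k1 : IsClosed {v : ℝ × ℝ × ℝ | v.1 = x₁ ∧ τ₁ ≤ v.2.1 ∧ v.2.1 ≤ y₁} :=
      (isClosed_eq r1 continuous_const).inter
        ((isClosed_le continuous_const r2).inter (isClosed_le r2 continuous_const))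
    have k2 : IsClosed {v : ℝ × ℝ × ℝ | x₂ ≤ v.1 ∧ v.1 ≤ x₁ ∧ v.2.1 = y₁} :=
      (isClosed_le continuous_const r1).inter
        ((isClosed_le r1 continuous_const).inter (isClosed_eq r2 continuous_const))
    have k3 : IsClosed {v : ℝ × ℝ × ℝ | v.1 = x₂ ∧ y₁ ≤ v.2.1 ∧ v.2.1 ≤ v.2.2} :=
      (isClosed_eq r1 continuous_const).inter
        ((isClosed_le continuous_const r2).inter (isClosed_le r2 r3))
    have k4 : IsClosed {v : ℝ × ℝ × ℝ | v.1 ≤ x₂ ∧ v.2.1 = v.2.2} :=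
      (isClosed_le r1 continuous_const).inter (isClosed_eq r2 r3)
    exact k1.union (k2.union (k3.union k4))
  obtain ⟨f, hf⟩ : ∃ f : ℂ × ℂ → ℝ × ℝ × ℝ, f = fun x => (|x.2.re|, x.2.im, (z x.1).im) :=
    ⟨_, rfl⟩
  have hfc : ContinuousOn f (K ×ˢ Kq 0 x₁ M) := by
    rw [hf]
    have hz' : ContinuousOn (fun x : ℂ × ℂ => z x.1) (K ×ˢ Kq 0 x₁ M) :=
      hzc.comp continuousOn_fst fun x hx => hx.1
    have hz2 : ContinuousOn (fun x : ℂ × ℂ => (z x.1).im) (K ×ˢ Kq 0 x₁ M) :=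
      Complex.continuous_im.comp_continuousOn hz'
    have c1 : Continuous (fun x : ℂ × ℂ => |x.2.re|) := by fun_prop
    have c2 : Continuous (fun x : ℂ × ℂ => x.2.im) := by fun_prop
    exact c1.continuousOn.prodMk (c2.continuousOn.prodMk hz2)
  have e : {x : ℂ × ℂ | x.1 ∈ K ∧ x.2 ∈ Pth x₁ x₂ y₁ (z x.1).im τ₁} =
      (K ×ˢ Kq 0 x₁ M) ∩ f ⁻¹' G := by
    ext ⟨p, w⟩
    constructor
    · rintro ⟨hp, hw⟩
      have hp' : p ∈ K := hp
      refine ⟨⟨hp, ?_⟩, ?_⟩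
      · have m1 := hMK p hp'
        have m2 := hyz p hp'
        show |w.re| ≤ x₁ ∧ |w.im - 0| ≤ M
        rw [sub_zero]
        rcases hw with ⟨a1, a2, a3⟩ | ⟨a1, a2, a3⟩ | ⟨a1, a2, a3⟩ | ⟨a1, a2⟩
        · have a1' : |w.re| = x₁ := a1
          have a2' : τ₁ ≤ w.im := a2
          have a3' : w.im ≤ y₁ := a3
          exact ⟨a1'.le, by rw [abs_of_nonneg (by linarith)]; linarith⟩
        · have a2' : |w.re| ≤ x₁ := a2
          have a3' : w.im = y₁ := a3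
          exact ⟨a2', by rw [abs_of_nonneg (by linarith)]; linarith⟩
        · have a1' : |w.re| = x₂ := a1
          have a2' : y₁ ≤ w.im := a2
          have a3' : w.im ≤ (z p).im := a3
          exact ⟨by linarith, by rw [abs_of_nonneg (by linarith)]; linarith⟩
        · have a1' : |w.re| ≤ x₂ := a1
          have a2' : w.im = (z p).im := a2
          exact ⟨by linarith, by rw [abs_of_nonneg (by linarith)]; linarith⟩
      · rw [hf, hG]
        exact hw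
    · rintro ⟨⟨hp, -⟩, h⟩
      rw [hf, hG] at h
      exact ⟨hp, h⟩
  rw [e]
  exact hKI.of_isClosed_subset (hfc.preimage_isClosed_of_isClosed hKI.isClosed hGc)
    Set.inter_subset_left

/-- localisation at the critical point, uniformly in a parameter -/
theorem loc_u {a : ℤ} {x₁ x₂ y₁ τ₁ : ℝ} (hx2 : 0 < x₂) (hx : x₂ ≤ x₁) (hxπ : x₁ < π)
    (hτ1 : 0 < τ₁) (hτy : τ₁ ≤ y₁) {K U : Set ℂ} (hK : IsCompact K)
    {P PL : ℕ → ℂ → ℂ → ℂ} (hP : ∀ N, ∀ p ∈ K, Differentiable ℂ (P N p))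
    (hPL : ∀ N, ∀ p ∈ K, Differentiable ℂ (PL N p)) {Φ : ℂ → ℂ → ℂ} {z : ℂ → ℂ}
    (hΦc : ContinuousOn (fun x : ℂ × ℂ => Φ x.1 x.2) (K ×ˢ U)) (hzc : ContinuousOn z K)
    (hmw : ∀ ε : ℝ, 0 < ε → ∀ W ⊆ U, IsCompact W → ∀ᶠ N : ℕ in atTop, ∀ p ∈ K, ∀ φ ∈ W,
      PL N p φ ≠ 0 ∧ |Real.log ‖PL N p φ‖ - N * (Φ p φ).re| ≤ ε * N)
    (hyz : ∀ p ∈ K, y₁ ≤ (z p).im) (hPth : ∀ p ∈ K, Pth x₁ x₂ y₁ (z p).im τ₁ ⊆ U)
    (hlt : ∀ p ∈ K, ∀ w ∈ Pth x₁ x₂ y₁ (z p).im τ₁, w ≠ z p →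
      (qq a (Φ p) w).re < (qq a (Φ p) (z p)).re)
    {κ : ℝ} (hκ : 0 < κ)
    (hfar : ∀ᶠ N : ℕ in atTop, ∀ p ∈ K, ∀ x y : ℝ, x₁ ≤ |x| → |x| ≤ π → |y| ≤ τ₁ →
      ‖PL N p (x + y * Complex.I)‖ ≤
        Real.exp (N * ((qq a (Φ p) (z p)).re - |(a : ℝ)| * τ₁ / 2 - κ)))
    (hdif : ∀ᶠ N : ℕ in atTop, ∀ p ∈ K, ∀ x y : ℝ, |x| ≤ π → |y| ≤ 1 / N →
      ‖P N p (x + y * Complex.I) - PL N p (x + y * Complex.I)‖ ≤
        Real.exp (N * ((qq a (Φ p) (z p)).re - κ)))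
    {δ : ℝ} (hδ : 0 < δ) (hδx : ∀ p ∈ K, |(z p).re| + δ ≤ x₂) :
    ∃ κ' : ℝ, 0 < κ' ∧ ∀ᶠ N : ℕ in atTop, ∀ p ∈ K,
      ‖(upp (1 / N) fun φ => Ea a N φ * P N p φ * kr N φ) - (-1) ^ N * ∫ x in (-δ)..δ,
        2 * Complex.sin (z p + x) * Complex.exp (N * pl a (z p + x)) * PL N p (z p + x)‖ ≤
        Real.exp (N * ((qq a (Φ p) (z p)).re - κ')) := by
  have hπ := Real.pi_gt_three
  have hy1 : 0 < y₁ := lt_of_lt_of_le hτ1 hτy
  obtain ⟨M, hM⟩ := hK.exists_bound_of_continuousOn hzc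
  have hMK : ∀ p ∈ K, (z p).im ≤ M := fun p hp =>
    (le_abs_self _).trans ((Complex.abs_im_le_norm _).trans (hM p hp))
  have hT := T_compact hx hτ1 hτy hK hzc hyz
  obtain ⟨T, hTe⟩ : ∃ T : Set (ℂ × ℂ), T = {x : ℂ × ℂ | x.1 ∈ K ∧
    x.2 ∈ Pth x₁ x₂ y₁ (z x.1).im τ₁} := ⟨_, rfl⟩
  rw [← hTe] at hT
  have hTU : T ⊆ K ×ˢ U := by
    intro x hx
    rw [hTe] at hx
    exact ⟨hx.1, hPth x.1 hx.1 hx.2⟩
  -- continuity of the real part of the potential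
  have hqc : ContinuousOn (fun x : ℂ × ℂ => (qq a (Φ x.1) x.2).re) (K ×ˢ U) := by
    apply Complex.continuous_re.comp_continuousOn
    unfold qq
    apply ContinuousOn.add _ hΦc
    fun_prop
  have hzmem : ∀ p ∈ K, z p ∈ Pth x₁ x₂ y₁ (z p).im τ₁ := by
    intro p hp
    refine Or.inr (Or.inr (Or.inr ⟨?_, rfl⟩))
    have := hδx p hp
    linarith
  -- the gap
  obtain ⟨κ₂, hκ₂, hout⟩ : ∃ κ : ℝ, 0 < κ ∧ ∀ p ∈ K, ∀ w ∈ Pth x₁ x₂ y₁ (z p).im τ₁,
      δ ≤ ‖w - z p‖ → (qq a (Φ p) w).re ≤ (qq a (Φ p) (z p)).re - κ := by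
    obtain ⟨S, hS⟩ : ∃ S : Set (ℂ × ℂ), S = T ∩
      (fun x : ℂ × ℂ => ‖x.2 - z x.1‖) ⁻¹' Set.Ici δ := ⟨_, rfl⟩
    have hz' : ContinuousOn (fun x : ℂ × ℂ => z x.1) T :=
      hzc.comp continuousOn_fst fun x hx => (hTU hx).1
    have hSc : IsCompact S := by
      rw [hS]
      refine hT.of_isClosed_subset ?_ Set.inter_subset_left
      apply ContinuousOn.preimage_isClosed_of_isClosed _ hT.isClosed isClosed_Ici
      exact (continuousOn_snd.sub hz').norm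
    have hST : S ⊆ T := by rw [hS]; exact Set.inter_subset_left
    have hzS : ContinuousOn (fun x : ℂ × ℂ => z x.1) S := hz'.mono hST
    have hc : ContinuousOn (fun x : ℂ × ℂ => (qq a (Φ x.1) (z x.1)).re -
        (qq a (Φ x.1) x.2).re) S := by
      apply ContinuousOn.sub
      · refine hqc.comp (f := fun x : ℂ × ℂ => (x.1, z x.1))
          (ContinuousOn.prodMk continuousOn_fst hzS) ?_
        intro x hx
        have h := (hTU (hST hx)).1
        exact ⟨h, hPth x.1 h (hzmem x.1 h)⟩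
      · exact hqc.mono (hST.trans hTU)
    obtain ⟨κ, h1, h2⟩ := hSc.exists_forall_le' hc (a := 0) (by
      intro x hx
      have hxT := hST hx
      rw [hTe] at hxT
      rw [hS] at hx
      have hx3 : δ ≤ ‖x.2 - z x.1‖ := hx.2
      have := hlt x.1 hxT.1 x.2 hxT.2 (by
        intro h0
        rw [h0, sub_self, norm_zero] at hx3
        linarith)
      exact sub_pos.2 this)
    refine ⟨κ, h1, fun p hp w hw hw' => ?_⟩
    have h3 := h2 (p, w) (by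
      rw [hS, hTe]
      exact ⟨⟨hp, hw⟩, hw'⟩)
    simp only at h3
    linarith
  obtain ⟨κm, hκm⟩ : ∃ κm : ℝ, κm = min κ (min κ₂ y₁) := ⟨_, rfl⟩
  have hκm0 : 0 < κm := by rw [hκm]; exact lt_min hκ (lt_min hκ₂ hy1)
  have hκm1 : κm ≤ κ := by rw [hκm]; exact min_le_left _ _
  have hκm2 : κm ≤ κ₂ := by rw [hκm]; exact (min_le_right _ _).trans (min_le_left _ _)
  have hκm3 : κm ≤ y₁ := by rw [hκm]; exact (min_le_right _ _).trans (min_le_right _ _)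
  obtain ⟨H, hH⟩ : ∃ H : ℝ, H = Real.exp M := ⟨_, rfl⟩
  obtain ⟨C, hC, hub⟩ := Pool.Agent.W711.HT.upb a
  obtain ⟨C', hC', hub'⟩ := upp_bd Pool.Agent.W711.HT.upb a
  have hWc : IsCompact (Prod.snd '' T) := hT.image continuous_snd
  have hWU : Prod.snd '' T ⊆ U := by
    rintro w ⟨x, hx, rfl⟩
    exact (hTU hx).2
  refine ⟨κm / 2, by positivity, ?_⟩
  filter_upwards [hub x₁ (lt_of_lt_of_le hx2 hx) hxπ.le, hub' 1 one_pos (by linarith),
    ev_inv hτ1, eventually_gt_atTop 0, hfar, hdif, hmw (κm / 4) (by positivity) _ hWU hWc,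
    ev_exp (show 0 < κm / 4 by positivity)
      (2 * C' + C + (2 * x₁ + 2 * H) * (8 * H) + 32 * H * x₂ + 40 * H * δ)]
    with N h1 h2 h3 h4 hb1 hb3 h5 h6 p hp
  have hexp : Real.exp (z p).im ≤ H := by rw [hH]; exact Real.exp_le_exp.2 (hMK p hp)
  refine loc_pt hx2 hx hxπ hτ1 hτy (hP N p hp) (hPL N p hp) (hyz p hp) hexp hδ (hδx p hp)
    (Φ := Φ p) (κ := κ) (κ₁ := κ₂) (C := C) (C' := C')
    ?_ ?_ ?_ hκm0 hκm1 hκm2 (hκm3.trans (hyz p hp)) ?_ (hb1 p hp) (hb3 p hp)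
    (fun f B hf => (h1 f B hf).1) h2 h3 h4 h6
  · intro w hw
    have hδp := hδx p hp
    have hw1 : w ∈ Pth x₁ x₂ y₁ (z p).im τ₁ ∧ x₂ ≤ |w.re| := by
      rcases hw with h | h | h
      · exact ⟨Or.inl h, by rw [h.1]; exact hx⟩
      · exact ⟨Or.inr (Or.inl h), h.1⟩
      · exact ⟨Or.inr (Or.inr (Or.inl h)), by rw [h.1]⟩
    refine hout p hp w hw1.1 ?_
    have k1 := Complex.abs_re_le_norm (w - z p)
    rw [Complex.sub_re] at k1
    have k2 := abs_sub_abs_le_abs_sub w.re (z p).re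
    linarith [hw1.2]
  · intro x hx'
    by_cases h : x = (z p).re
    · rw [h, Complex.re_add_im]
    · refine (hlt p hp _ (Or.inr (Or.inr (Or.inr ⟨by rw [xy_re]; exact hx', xy_im _ _⟩))) ?_).le
      intro h0
      apply h
      have := congrArg Complex.re h0
      rwa [xy_re] at this
  · intro x hx' hx3
    refine hout p hp _ (Or.inr (Or.inr (Or.inr ⟨by rw [xy_re]; exact hx', xy_im _ _⟩))) ?_
    have k1 := Complex.abs_re_le_norm ((x : ℂ) + (z p).im * Complex.I - z p)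
    rw [Complex.sub_re, xy_re] at k1
    linarith
  · intro w hw
    exact h5 p hp w ⟨(p, w), by rw [hTe]; exact ⟨hp, hw⟩, rfl⟩

end Pool.Agent.N499.AX
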