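import Pool.Agent.N499.AX.Loc
import Pool.Agent.TH790.J1744
import Pool.Agent.N561.AX.Stm

/-!
# Small vertices: the expansion of the outer integral on a staircase path (job AX4)
-/

set_option autoImplicit false
set_option maxHeartbeats 1000000

namespace Pool.Agent.N499.AX

open Finset Filter Topology Metric
open Pool.Agent.W711.HT hiding XX
open Pool.Agent.N561 (Pth)
open Pool.Agent.W719.AX (UX cv)
open Pool.Agent.W85.HT hiding Rc_mono
open Pool.Agent.W21.AX (ux_comp ux_cst ux_small exp_small)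
open Pool.Agent.TH790.V (cont2g)
open scoped Real

/-- **job AX4.** -/
theorem outx : Pool.Agent.N561.AX.S_OUTX := by
  intro a x₁ x₂ y₁ τ₁ hx2 hx hxπ hτ1 hτy K V U hK hVK hU P PL Φ z n hP hPL hΦ hΦc hzc hmw hzz hfr
    hn V₀ A hV₀ hV₀U hzV₀ hA hAd hAnz
  rcases K.eq_empty_or_nonempty with he | hne
  · have hVe : ∀ p, p ∉ V := fun p hp => by
      have := hVK hp
      rw [he] at this
      exact this.elim
    exact ⟨fun _ _ => 1, fun p hp => (hVe p hp).elim, fun _ => ⟨0,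
      Eventually.of_forall fun N p hp => (hVe p hp).elim⟩⟩
  obtain ⟨κ, hκ, hfar, hdif⟩ := hfr
  have hy1 : 0 < y₁ := lt_of_lt_of_le hτ1 hτy
  have hyz : ∀ p ∈ K, y₁ ≤ (z p).im := fun p hp => (hzz p hp).1
  have hzr : ∀ p ∈ K, |(z p).re| < x₂ := fun p hp => (hzz p hp).2.1
  have hPth : ∀ p ∈ K, Pth x₁ x₂ y₁ (z p).im τ₁ ⊆ U := fun p hp => (hzz p hp).2.2.1
  have hcrit : ∀ p ∈ K, deriv (qq a (Φ p)) (z p) = 0 := fun p hp => (hzz p hp).2.2.2.1
  have hneg : ∀ p ∈ K, (deriv (deriv (qq a (Φ p))) (z p)).re < 0 :=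
    fun p hp => (hzz p hp).2.2.2.2.1
  have hlt := fun p hp => (hzz p hp).2.2.2.2.2
  have hz0 : ∀ p ∈ K, 0 < (z p).im := fun p hp => lt_of_lt_of_le hy1 (hyz p hp)
  have hqd : ∀ p ∈ K, DifferentiableOn ℂ (qq a (Φ p)) U := by
    intro p hp
    have : qq a (Φ p) = fun w => pl a w + Φ p w := by
      funext w
      exact qq_pl a (Φ p) w
    rw [this]
    exact (pl_diff a).differentiableOn.add (hΦ p hp)
  have hqc : ContinuousOn (fun x : ℂ × ℂ => qq a (Φ x.1) x.2) (K ×ˢ U) := by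
    unfold qq
    apply ContinuousOn.add _ hΦc
    fun_prop
  -- a compact neighbourhood of the critical points
  have hzK : IsCompact (z '' K) := hK.image_of_continuousOn hzc
  obtain ⟨δ₀, hδ₀, hZV⟩ := hzK.exists_cthickening_subset_open hV₀ (by
    rintro w ⟨p, hp, rfl⟩
    exact hzV₀ p hp)
  obtain ⟨Z, hZ⟩ : ∃ Z : Set ℂ, Z = cthickening δ₀ (z '' K) := ⟨_, rfl⟩
  obtain ⟨Zo, hZo⟩ : ∃ Zo : Set ℂ, Zo = thickening δ₀ (z '' K) := ⟨_, rfl⟩
  rw [← hZ] at hZV
  have hZc : IsCompact Z := by rw [hZ]; exact hzK.cthickening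
  have hZoZ : Zo ⊆ Z := by rw [hZ, hZo]; exact thickening_subset_cthickening _ _
  have hZoo : IsOpen Zo := by rw [hZo]; exact isOpen_thickening
  have hZU : Z ⊆ U := hZV.trans hV₀U
  have hzZo : ∀ p ∈ K, z p ∈ Zo := by
    intro p hp
    rw [hZo]
    exact self_subset_thickening hδ₀ _ ⟨p, hp, rfl⟩
  -- a uniform radius
  obtain ⟨δ₁, hδ₁0, hδ₁⟩ : ∃ δ : ℝ, 0 < δ ∧ ∀ p ∈ K, δ ≤ x₂ - |(z p).re| := by
    refine hK.exists_forall_le' ?_ ?_
    · exact continuousOn_const.sub (Complex.continuous_re.comp_continuousOn hzc).abs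
    · intro p hp
      exact sub_pos.2 (hzr p hp)
  obtain ⟨δ, hδ⟩ : ∃ δ : ℝ, δ = min δ₀ δ₁ := ⟨_, rfl⟩
  have hδ0 : 0 < δ := by rw [hδ]; exact lt_min hδ₀ hδ₁0
  have hδ1 : ∀ p ∈ K, |(z p).re| + δ ≤ x₂ := by
    intro p hp
    have h1 := hδ₁ p hp
    have h2 : δ ≤ δ₁ := by rw [hδ]; exact min_le_right _ _
    linarith
  have hball : ∀ p ∈ K, ∀ u ∈ ball (0 : ℂ) δ, z p + u ∈ Zo := by
    intro p hp u hu
    rw [mem_ball, dist_zero_right] at hu
    rw [hZo, mem_thickening_iff]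
    refine ⟨z p, ⟨p, hp, rfl⟩, ?_⟩
    rw [dist_eq_norm, add_sub_cancel_left]
    exact hu.trans_le (by rw [hδ]; exact min_le_left _ _)
  have hballU : ∀ p ∈ K, ∀ u ∈ ball (0 : ℂ) δ, z p + u ∈ U := fun p hp u hu =>
    hZU (hZoZ (hball p hp u hu))
  have hballV : ∀ p ∈ K, ∀ u ∈ ball (0 : ℂ) δ, z p + u ∈ V₀ := fun p hp u hu =>
    hZV (hZoZ (hball p hp u hu))
  -- bounds
  obtain ⟨B, hB⟩ := (hK.prod hZc).exists_bound_of_continuousOn
    (hqc.mono (Set.prod_mono subset_rfl hZU))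
  have hBR : ∀ p ∈ K, ∀ w ∈ Zo, ‖qq a (Φ p) w‖ ≤ B := by
    intro p hp w hw
    exact hB (p, w) ⟨hp, hZoZ hw⟩
  have hc2 : ContinuousOn (fun p => deriv (deriv (qq a (Φ p))) (z p)) K :=
    cont2g (g := fun p => qq a (Φ p)) hZoo hZc hZoZ
      (fun p hp => (hqd p hp).mono (hZoZ.trans hZU))
      (hqc.mono (Set.prod_mono subset_rfl hZU)) hK hzc hzZo
  obtain ⟨c, hc0, hc⟩ := Pool.Agent.W688.AX.unif_neg hK hne hc2 hneg
  obtain ⟨q, hq⟩ : ∃ q : ℂ → ℂ → ℂ, q = fun p u => qq a (Φ p) (z p + u) - qq a (Φ p) (z p) :=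
    ⟨_, rfl⟩
  have hd1 : ∀ p, deriv (q p) = fun u => deriv (qq a (Φ p)) (z p + u) := by
    intro p
    funext u
    rw [hq]
    show deriv (fun u => qq a (Φ p) (z p + u) - qq a (Φ p) (z p)) u = _
    rw [deriv_sub_const, deriv_comp_const_add]
  have hd2 : ∀ p, deriv (deriv (q p)) 0 = deriv (deriv (qq a (Φ p))) (z p) := by
    intro p
    rw [hd1, deriv_comp_const_add, add_zero]
  have hcond : ∀ p ∈ V, DifferentiableOn ℂ (q p) (ball 0 δ) ∧
      (∀ u ∈ ball (0 : ℂ) δ, ‖q p u‖ ≤ 2 * B) ∧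
      q p 0 = 0 ∧ deriv (q p) 0 = 0 ∧ (deriv (deriv (q p)) 0).re ≤ -c := by
    intro p hpV
    have hp := hVK hpV
    refine ⟨?_, ?_, ?_, ?_, ?_⟩
    · rw [hq]
      refine DifferentiableOn.sub_const ?_ _
      exact (hqd p hp).comp (by fun_prop) (fun u hu => hballU p hp u hu)
    · intro u hu
      rw [hq]
      show ‖qq a (Φ p) (z p + u) - qq a (Φ p) (z p)‖ ≤ 2 * B
      have := norm_sub_le (qq a (Φ p) (z p + u)) (qq a (Φ p) (z p))
      have h1 := hBR p hp _ (hball p hp u hu)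
      have h2 := hBR p hp _ (hzZo p hp)
      linarith
    · rw [hq]
      show qq a (Φ p) (z p + 0) - qq a (Φ p) (z p) = 0
      rw [add_zero, sub_self]
    · rw [hd1]
      show deriv (qq a (Φ p)) (z p + 0) = 0
      rw [add_zero, hcrit p hp]
    · rw [hd2]
      exact hc p hp
  obtain ⟨δ', hδ', hδδ, hLap⟩ := Pool.Agent.W719.AX.f_LX δ (2 * B) c hδ0 hc0
  obtain ⟨δ'', hδ''⟩ : ∃ δ'' : ℝ, δ'' = min δ' (δ / 2) := ⟨_, rfl⟩
  have hδ''0 : 0 < δ'' := by rw [hδ'']; exact lt_min hδ' (by linarith)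
  have hδ''1 : δ'' ≤ δ' := by rw [hδ'']; exact min_le_left _ _
  have hδ''2 : δ'' ≤ δ / 2 := by rw [hδ'']; exact min_le_right _ _
  -- the amplitude
  obtain ⟨H, hH⟩ : ∃ H : ℕ → ℂ × ℂ → ℂ, H = fun (N : ℕ) (x : ℂ × ℂ) =>
    (n N * Complex.exp (-(N * Φ x.1 (z x.1 + x.2))) * PL N x.1 (z x.1 + x.2)) *
      (2 * Complex.sin (z x.1 + x.2)) := ⟨_, rfl⟩
  obtain ⟨h, hh⟩ : ∃ h : ℕ → ℂ × ℂ → ℂ, h = cv (fun n (x : ℂ × ℂ) => A n (x.1, z x.1 + x.2))
    (fun n x => if n = 0 then 2 * Complex.sin (z x.1 + x.2) else 0) := ⟨_, rfl⟩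
  obtain ⟨Bs, hBs⟩ := hZc.exists_bound_of_continuousOn
    (show ContinuousOn (fun w : ℂ => 2 * Complex.sin w) Z from by fun_prop)
  have hHh : UX H h (V ×ˢ ball (0 : ℂ) δ) := by
    rw [hH, hh]
    have u1 := ux_comp hA (fun x : ℂ × ℂ => (x.1, z x.1 + x.2)) (V ×ˢ ball (0 : ℂ) δ)
      (fun x hx => ⟨hx.1, hballV x.1 (hVK hx.1) x.2 hx.2⟩)
    have u2 := ux_cst (fun x : ℂ × ℂ => 2 * Complex.sin (z x.1 + x.2))
      (V ×ˢ ball (0 : ℂ) δ) Bs (fun x hx => hBs _ (hZoZ (hball x.1 (hVK hx.1) x.2 hx.2)))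
    exact Pool.Agent.W303.AX.uxmul _ _ _ _ _ _ u1 u2
  have hcont : ∀ᶠ N : ℕ in atTop, ∀ p ∈ V, ContinuousOn (fun u => H N (p, u)) (ball 0 δ) := by
    refine Eventually.of_forall fun N p hpV => ?_
    have hp := hVK hpV
    rw [hH]
    have c1 : ContinuousOn (fun u : ℂ => z p + u) (ball 0 δ) := by fun_prop
    have c2 : ContinuousOn (fun u : ℂ => Φ p (z p + u)) (ball 0 δ) :=
      (hΦ p hp).continuousOn.comp c1 (fun u hu => hballU p hp u hu)
    have c3 : ContinuousOn (fun u : ℂ => PL N p (z p + u)) (ball 0 δ) :=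
      (hPL N p hp).continuous.comp_continuousOn c1
    have c4 : ContinuousOn (fun u : ℂ => Complex.sin (z p + u)) (ball 0 δ) :=
      Complex.continuous_sin.comp_continuousOn c1
    exact ((continuousOn_const.mul (continuousOn_const.mul c2).neg.cexp).mul c3).mul
      (continuousOn_const.mul c4)
  have hdiff : ∀ n, ∀ p ∈ V, DifferentiableOn ℂ (fun u => h n (p, u)) (ball 0 δ) := by
    intro n p hpV
    have hp := hVK hpV
    have c1 : DifferentiableOn ℂ (fun u : ℂ => z p + u) (ball 0 δ) := by fun_prop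
    have d2 : ∀ i : ℕ, DifferentiableOn ℂ (fun u : ℂ => A i (p, z p + u)) (ball 0 δ) :=
      fun i => (hAd i p hpV).comp c1 (fun u hu => hballV p hp u hu)
    have d3 : ∀ i : ℕ, DifferentiableOn ℂ (fun u : ℂ =>
        if i = 0 then 2 * Complex.sin (z p + u) else 0) (ball 0 δ) := by
      intro i
      by_cases hi : i = 0
      · simp only [hi, if_true]
        fun_prop
      · simp only [hi, if_false]
        exact differentiableOn_const _
    rw [hh]
    simp only [cv]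
    exact DifferentiableOn.fun_sum fun j _ => (d2 j).mul (d3 _)
  obtain ⟨A', hA', hA'0⟩ := hLap δ'' hδ''0 hδ''1 ℂ V q H h hcond hcont hdiff hHh
  obtain ⟨κ', hκ', hW⟩ := loc_u hx2 hx hxπ hτ1 hτy hK hP hPL hΦc hzc hmw hyz hPth hlt hκ hfar hdif
    hδ''0 (fun p hp => by have := hδ1 p hp; linarith)
  refine ⟨A', ?_, ux_small hA' (fun K' => ⟨1, ?_⟩)⟩
  · intro p hpV
    have hp := hVK hpV
    rw [hA'0 p hpV, hd2]
    have hh0 : h 0 (p, 0) = A 0 (p, z p) * (2 * Complex.sin (z p)) := by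
      rw [hh]
      simp [cv]
    rw [hh0]
    have hsin : Complex.sin (z p) ≠ 0 := by
      intro h0
      obtain ⟨k, hk⟩ := Complex.sin_eq_zero_iff.1 h0
      have : (z p).im = 0 := by
        rw [hk]
        have : (k : ℂ) * π = ((k * π : ℝ) : ℂ) := by push_cast; ring
        rw [this, Complex.ofReal_im]
      linarith [hz0 p hp]
    refine mul_ne_zero (mul_ne_zero (hAnz _ ⟨hpV, hzV₀ p hp⟩) (mul_ne_zero two_ne_zero hsin)) ?_
    rw [Ne, Complex.cpow_eq_zero_iff]
    rintro ⟨h5, -⟩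
    have h6 : deriv (deriv (qq a (Φ p))) (z p) ≠ 0 := by
      intro h7
      have := hneg p hp
      rw [h7] at this
      simp at this
    have h8 : (2 * (π : ℂ)) ≠ 0 := by
      have := Complex.ofReal_ne_zero.2 Real.pi_ne_zero
      exact mul_ne_zero two_ne_zero this
    exact (div_ne_zero h8 (neg_ne_zero.2 h6)) h5
  · filter_upwards [hW, exp_small (κ' / 2) (by positivity) 1 K', eventually_ge_atTop 1,
      hn (κ' / 2) (by positivity)] with N h1 h2 h3 h4 p hpV
    have hp := hVK hpV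
    have hN1 : (1 : ℝ) ≤ N := by exact_mod_cast h3
    have e1 : (Real.sqrt N : ℂ) * ∫ x in (-δ'')..δ'', Complex.exp (N * q p x) * H N (p, x) =
        n N * (Real.sqrt N : ℂ) * (-1) ^ N *
          Complex.exp (-(N * qq a (Φ p) (z p))) * ((-1) ^ N * ∫ x in (-δ'')..δ'',
            2 * Complex.sin (z p + x) * Complex.exp (N * pl a (z p + x)) *
              PL N p (z p + x)) := by
      have hsgn : (-1 : ℂ) ^ N * (-1) ^ N = 1 := by
        rw [← pow_add, ← two_mul, pow_mul]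
        norm_num
      have e2 : n N * (Real.sqrt N : ℂ) * (-1) ^ N *
          Complex.exp (-(N * qq a (Φ p) (z p))) * ((-1) ^ N * ∫ x in (-δ'')..δ'',
            2 * Complex.sin (z p + x) * Complex.exp (N * pl a (z p + x)) *
              PL N p (z p + x)) =
          (Real.sqrt N : ℂ) * ((n N * Complex.exp (-(N * qq a (Φ p) (z p)))) *
            ∫ x in (-δ'')..δ'',
            2 * Complex.sin (z p + x) * Complex.exp (N * pl a (z p + x)) *
              PL N p (z p + x)) := by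
        linear_combination (n N * (Real.sqrt N : ℂ) * Complex.exp (-(N * qq a (Φ p) (z p))) *
          ∫ x in (-δ'')..δ'',
            2 * Complex.sin (z p + x) * Complex.exp (N * pl a (z p + x)) *
              PL N p (z p + x)) * hsgn
      rw [e2]
      congr 1
      rw [← intervalIntegral.integral_const_mul]
      apply intervalIntegral.integral_congr
      intro x _
      show Complex.exp (N * q p x) * H N (p, x) = _
      rw [hq, hH]
      show Complex.exp (N * (qq a (Φ p) (z p + x) - qq a (Φ p) (z p))) * ((n N *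
        Complex.exp (-(N * Φ p (z p + x))) * PL N p (z p + x)) * (2 * Complex.sin (z p + x))) =
        (n N * Complex.exp (-(N * qq a (Φ p) (z p)))) *
          (2 * Complex.sin (z p + x) * Complex.exp (N * pl a (z p + x)) *
            PL N p (z p + x))
      have e3 : Complex.exp (N * (qq a (Φ p) (z p + x) - qq a (Φ p) (z p))) *
          Complex.exp (-(N * Φ p (z p + x))) =
          Complex.exp (-(N * qq a (Φ p) (z p))) * Complex.exp (N * pl a (z p + x)) := by
        rw [← Complex.exp_add, ← Complex.exp_add]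
        congr 1
        rw [qq_pl a (Φ p) (z p + x)]
        ring
      linear_combination (n N * PL N p (z p + x) *
        (2 * Complex.sin (z p + x))) * e3
    rw [e1, ← mul_sub, norm_mul]
    have e7 : ‖n N * (Real.sqrt N : ℂ) * (-1) ^ N *
        Complex.exp (-(N * qq a (Φ p) (z p)))‖ = ‖n N‖ * Real.sqrt N *
          Real.exp (-(N * (qq a (Φ p) (z p)).re)) := by
      rw [norm_mul, norm_mul, norm_mul, norm_pow, norm_neg, norm_one, one_pow, mul_one,
        Complex.norm_real, Real.norm_of_nonneg (Real.sqrt_nonneg _), Complex.norm_exp]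
      congr 2
      simp
    rw [e7]
    have e8 : Real.sqrt N ≤ N := by
      rw [Real.sqrt_le_left (by positivity)]
      nlinarith
    calc ‖n N‖ * Real.sqrt N * Real.exp (-(N * (qq a (Φ p) (z p)).re)) * _
        ≤ Real.exp (κ' / 2 * N) * N * Real.exp (-(N * (qq a (Φ p) (z p)).re)) *
          Real.exp (N * ((qq a (Φ p) (z p)).re - κ')) := by
          have := h1 p hp
          gcongr
      _ = (N : ℝ) ^ 1 * Real.exp (-(κ' / 2 * N)) := by
          rw [pow_one]
          have e9 : Real.exp (-(κ' / 2 * N)) = Real.exp (κ' / 2 * N) *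
              Real.exp (-(N * (qq a (Φ p) (z p)).re)) *
              Real.exp (N * ((qq a (Φ p) (z p)).re - κ')) := by
            rw [← Real.exp_add, ← Real.exp_add]
            congr 1
            ring
          rw [e9]
          ring
      _ ≤ 1 / (N : ℝ) ^ K' := h2

end Pool.Agent.N499.AX
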