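import Pool.Agent.N424.VS.SmC
import Pool.Agent.N561.AX.Stm

/-!
# Small vertices: the step at a small vertex with expansions (job AX5)
-/

set_option autoImplicit false
set_option maxHeartbeats 1000000

namespace Pool.Agent.N499.AX

open Finset Filter Topology Metric
open Pool.Agent.N561
open Pool.Agent.N561.AX
open Pool.Agent.N424.VS
open Pool.Agent.W711.HT hiding XX
open Pool.Agent.TH563.V
open Pool.Agent.W719.AX (UX GX cv)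
open Pool.Agent.W85.HT (Kc Kc_mem Kc_compact ker_diff ker_symm stp_eq)
open Pool.Agent.W21.AX (ux_comp exp_small)
open scoped Real

lemma ux_eq {E : Type} {Y Y' A : ℕ → E → ℂ} {S : Set E} (h : UX Y A S)
    (he : ∀ N : ℕ, ∀ p ∈ S, Y' N p = Y N p) : UX Y' A S := by
  intro K
  obtain ⟨C, hC⟩ := h K
  exact ⟨C, hC.mono fun N hN p hp => by rw [he N p hp]; exact hN p hp⟩

/-- the normalising factor grows slower than any exponential -/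
lemma nn_ev (q e : ℕ) {ε : ℝ} (hε : 0 < ε) : ∀ᶠ N : ℕ in atTop,
    ‖(N : ℂ) ^ (2 * q) * (-1) ^ (N * q) * ((((Real.sqrt N) ^ e : ℝ)) : ℂ)‖ ≤
      Real.exp (ε * N) := by
  filter_upwards [exp_small ε hε (2 * q + e) 0, eventually_ge_atTop 1] with N h1 h2
  have hN1 : (1 : ℝ) ≤ N := by exact_mod_cast h2
  have hN0 : (0 : ℝ) ≤ N := by linarith
  rw [norm_mul, norm_mul, norm_pow, norm_pow, norm_neg, norm_one, one_pow, mul_one,
    Complex.norm_real, Real.norm_of_nonneg (pow_nonneg (Real.sqrt_nonneg _) _),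
    Complex.norm_natCast]
  have e8 : Real.sqrt N ≤ N := by
    rw [Real.sqrt_le_left (by positivity)]
    nlinarith
  have h3 : (Real.sqrt N) ^ e ≤ (N : ℝ) ^ e := pow_le_pow_left₀ (Real.sqrt_nonneg _) e8 e
  have h4 : (N : ℝ) ^ (2 * q) * (Real.sqrt N) ^ e ≤ (N : ℝ) ^ (2 * q + e) := by
    rw [pow_add]
    exact mul_le_mul_of_nonneg_left h3 (by positivity)
  refine h4.trans ?_
  rw [pow_zero, div_one, Real.exp_neg, ← div_eq_mul_inv, div_le_one (Real.exp_pos _)] at h1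
  exact h1

/-- the coefficients of the expansion of a kernel are holomorphic in the second variable -/
lemma kx_d2 {ρ₂ τ₂ : ℝ} {V : Set ℂ} {k : ℕ → ℂ → ℂ → ℂ} {σ : ℂ → ℂ → ℂ} {A : ℕ → ℂ × ℂ → ℂ}
    (h : KXG ρ₂ τ₂ V k σ A) {p : ℂ} (hp : p ∈ Rc ρ₂ τ₂)
    (hk : ∀ N, Differentiable ℂ (fun w => k N p w))
    (hσ : DifferentiableOn ℂ (fun w => σ p w) V) (i : ℕ) :
    DifferentiableOn ℂ (fun w => A i (p, w)) V := by
  have h1 := ux_comp h.ux (fun w : ℂ => (p, w)) V (fun w hw => ⟨hp, hw⟩)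
  refine Pool.Agent.W303.AX.uxan _ _ V h.hV (Eventually.of_forall fun N => ?_) h1 i
  exact ((hσ.const_mul _).neg.cexp.const_mul _).mul (hk N).differentiableOn

lemma kx_mono {ρ₂ τ₂ : ℝ} {V V' : Set ℂ} {k : ℕ → ℂ → ℂ → ℂ} {σ : ℂ → ℂ → ℂ}
    {A : ℕ → ℂ × ℂ → ℂ} (h : KXG ρ₂ τ₂ V k σ A) (hV' : IsOpen V') (hs : V' ⊆ V) :
    KXG ρ₂ τ₂ V' k σ A where
  hρ := h.hρ
  hτ := h.hτ
  hV := hV'
  ux := by
    intro K
    obtain ⟨C, hC⟩ := h.ux K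
    exact ⟨C, hC.mono fun N hN p hp => hN p ⟨hp.1, hs hp.2⟩⟩
  d1 := fun n p hp => h.d1 n p (hs hp)
  nz := fun x hx => h.nz x ⟨hx.1, hs hx.2⟩

lemma sq4 (N : ℕ) : ((((Real.sqrt N) ^ 3 : ℝ)) : ℂ) * (Real.sqrt N : ℂ) = (N : ℂ) ^ 2 := by
  have h1 : (Real.sqrt N) ^ 3 * Real.sqrt N = (N : ℝ) ^ 2 := by
    have h2 := Real.sq_sqrt (Nat.cast_nonneg (α := ℝ) N)
    calc (Real.sqrt N) ^ 3 * Real.sqrt N = ((Real.sqrt N) ^ 2) ^ 2 := by ring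
      _ = _ := by rw [h2]
  rw [← Complex.ofReal_mul, h1]
  push_cast
  ring

section

variable {j : ℕ} {a : ℤ} {z₀ : ℂ}
  {x₁ x₂ y τ₁ δ m ρ τ κ c C μ ε₁ ε₂ εR τR r₁ r₂ L C₁ : ℝ} {U : Set ℂ}
  {X XL : ℕ → ℂ → ℂ} {f : ℂ} {Φ F zs : ℂ → ℂ}

/-- the expansion of the function of a small vertex -/
theorem child_gx (hOX : S_OUTX) (hS : S_SF)
    (S : SC j a z₀ x₁ x₂ y τ₁ δ m ρ τ κ c C μ ε₁ ε₂ εR τR r₁ r₂ L U)
    (H : PSm U x₁ τ₁ ε₁ ε₂ j X XL f Φ)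
    (Hc : HCS a U z₀ x₂ r₁ r₂ c C₁ Φ F zs) (hzs : ContinuousOn zs (Rc r₂ r₂))
    {ρ₂ v : ℝ} {Ak : ℕ → ℂ × ℂ → ℂ} (hK : KXG ρ₂ ρ₂ (ball z₀ (2 * v)) k0 sg Ak) (hv : 0 < v)
    (hvU : ball z₀ (2 * v) ⊆ U) (hr : r₁ ≤ v) (hr₂ : r₂ ≤ ρ₂)
    {a₀ b₀ : ℝ} (ha2 : a₀ < r₂) (hb2 : b₀ < r₂)
    {q : ℕ} {A : ℕ → ℂ → ℂ} (hA : GXG (ball z₀ (2 * v)) q XL Φ A) :
    ∃ A' : ℕ → ℂ → ℂ, GX a₀ b₀ (q + 1) (stp a X) F A' := by
  have hπ := Real.pi_gt_three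
  have hμ := S.hμ.1
  have hx₂ : 0 < x₂ := lt_of_le_of_lt (abs_nonneg _) S.sv.ord.1
  obtain ⟨K, hKe⟩ : ∃ K : Set ℂ, K = Kc a₀ b₀ := ⟨_, rfl⟩
  have hKc : IsCompact K := by rw [hKe]; exact Kc_compact _ _
  have hK2 : K ⊆ Rc r₂ r₂ := by
    intro w hw
    rw [hKe, Kc_mem] at hw
    exact ⟨by linarith [hw.1], by linarith [hw.2]⟩
  have hVK : Rc a₀ b₀ ⊆ K := by
    intro w hw
    rw [hKe, Kc_mem]
    exact ⟨hw.1.le, hw.2.le⟩
  have hK3 : K ⊆ Rc (3 * ρ) (3 * τ) := hK2.trans (Rc_le (by linarith [S.hr₂.2.2.1, S.ed.hρ.1])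
    (by linarith [S.hr₂.2.2.2, S.ed.hτ.1]))
  have hKr : ∀ p ∈ K, |p.re| ≤ π ∧ |p.im| ≤ τR := by
    intro p hp
    have h1 := (hK2 hp).1
    have h2 := (hK2 hp).2
    have h3 := S.ed.hρ.2
    exact ⟨by linarith [S.hr₂.2.2.1], by linarith [S.hr₂.2.1]⟩
  have hsgd : ∀ p ∈ K, DifferentiableOn ℂ (fun w => sg p w) U := by
    intro p hp
    have h1 : DifferentiableOn ℂ (fun w : ℂ => (p, w)) U :=
      ((differentiable_const p).prodMk differentiable_id).differentiableOn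
    exact DifferentiableOn.comp (g := fun x : ℂ × ℂ => sg x.1 x.2) (f := fun w : ℂ => (p, w))
      S.ed.san h1 (fun w hw => Set.mk_mem_prod (hK3 hp) hw)
  have hlow : ∀ p ∈ K, f.re + Vr (j + 1) a z₀ - μ ≤
      (qq a (fun w => Φ w + sg p w) (zs p)).re := by
    intro p hp
    rw [← Hc.val p (hK2 hp)]
    exact F_low S H Hc hS (hK2 hp)
  have hcont : ContinuousOn (fun x : ℂ × ℂ => Φ x.2 + sg x.1 x.2) (K ×ˢ U) :=
    (H.Fan.continuousOn.comp continuousOn_snd (fun x hx => hx.2)).add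
      (S.ed.san.continuousOn.mono (Set.prod_mono hK3 subset_rfl))
  have hmw : ∀ ε : ℝ, 0 < ε → ∀ W ⊆ U, IsCompact W → ∀ᶠ N : ℕ in atTop, ∀ p ∈ K, ∀ φ ∈ W,
      XL N φ * k0 N p φ ≠ 0 ∧
        |Real.log ‖XL N φ * k0 N p φ‖ - N * (Φ φ + sg p φ).re| ≤ ε * N := by
    intro ε hε W hWU hWc
    filter_upwards [H.mw W hWU hWc (ε / 2) (by positivity), S.ed.mw (ε / 2) (by positivity)] with
      N h1 h2 p hp φ hφ
    obtain ⟨k1, k2⟩ := h1 φ hφ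
    obtain ⟨l1, l2⟩ := h2 p (hK3 hp) φ (hWU hφ)
    refine ⟨mul_ne_zero k1 l1, ?_⟩
    rw [norm_mul, Real.log_mul (norm_ne_zero_iff.2 k1) (norm_ne_zero_iff.2 l1), Complex.add_re]
    rw [abs_le] at k2 l2 ⊢
    constructor
    · linarith [k2.1, l2.1]
    · linarith [k2.2, l2.2]
  have hpt : ∀ p ∈ K, y ≤ (zs p).im ∧ |(zs p).re| < x₂ ∧ Pth x₁ x₂ y (zs p).im τ₁ ⊆ U ∧
      deriv (qq a (fun w => Φ w + sg p w)) (zs p) = 0 ∧
      (deriv (deriv (qq a (fun w => Φ w + sg p w))) (zs p)).re < 0 ∧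
      ∀ w ∈ Pth x₁ x₂ y (zs p).im τ₁, w ≠ zs p →
        (qq a (fun w => Φ w + sg p w) w).re < (qq a (fun w => Φ w + sg p w) (zs p)).re := by
    intro p hp
    have hp2 := hK2 hp
    obtain ⟨q1, q2⟩ := Hc.near p hp2
    obtain ⟨q3, q4, q5⟩ := S.near _ q1
    obtain ⟨p1, p2, p3⟩ := S.sv.pth _ q3
    exact ⟨p1, q4, p2, Hc.crit p hp2, Hc.neg p hp2,
      path_lt hS S.sv (cl_child S H hp2) le_rfl S.hμ.2 q3 q2 q5 (Hc.line p hp2)⟩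
  have hbd : ∃ κ : ℝ, 0 < κ ∧
      (∀ᶠ N : ℕ in atTop, ∀ p ∈ K, ∀ x y : ℝ, x₁ ≤ |x| → |x| ≤ π → |y| ≤ τ₁ →
        ‖XL N (x + y * Complex.I) * k0 N p (x + y * Complex.I)‖ ≤
          Real.exp (N * ((qq a (fun w => Φ w + sg p w) (zs p)).re - |(a : ℝ)| * τ₁ / 2 - κ))) ∧
      ∀ᶠ N : ℕ in atTop, ∀ p ∈ K, ∀ x y : ℝ, |x| ≤ π → |y| ≤ 1 / N →
        ‖X N (x + y * Complex.I) * ker N (x + y * Complex.I) p -
          XL N (x + y * Complex.I) * k0 N p (x + y * Complex.I)‖ ≤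
          Real.exp (N * ((qq a (fun w => Φ w + sg p w) (zs p)).re - κ)) := by
    refine ⟨μ, hμ, ?_, ?_⟩
    · filter_upwards [prod_rb H S.rk1 S.hτR.2] with N h p hp x y' hx hx' hy
      refine (h p (hKr p hp).1 (hKr p hp).2 x y' hx hx' hy).trans (Real.exp_le_exp.2 ?_)
      apply mul_le_mul_of_nonneg_left _ (Nat.cast_nonneg N)
      have h1 := S.d1
      have h2 := S.hε₂
      have h3 := hlow p hp
      linarith
    · filter_upwards [prod_diff H S.hεR S.rk2 S.hτR.1] with N h p hp x y' hx hy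
      refine (h p (hKr p hp).1 (hKr p hp).2 x y' hx hy).trans (Real.exp_le_exp.2 ?_)
      apply mul_le_mul_of_nonneg_left _ (Nat.cast_nonneg N)
      have h1 := S.d2
      have h3 := hlow p hp
      linarith
  have hzm : ∀ p ∈ K, zs p ∈ ball z₀ (2 * v) := by
    intro p hp
    rw [mem_ball, dist_eq_norm]
    have := (Hc.near p (hK2 hp)).1
    linarith
  have hVρ : Rc a₀ b₀ ⊆ Rc ρ₂ ρ₂ := Rc_le (by linarith) (by linarith)
  have hux : UX (fun (N : ℕ) (x : ℂ × ℂ) =>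
      ((N : ℂ) ^ (2 * q) * (-1) ^ (N * q) * ((((Real.sqrt N) ^ 3 : ℝ)) : ℂ)) *
        Complex.exp (-(N * (Φ x.2 + sg x.1 x.2))) * (XL N x.2 * k0 N x.1 x.2))
      (cv (fun i (x : ℂ × ℂ) => A i x.2) Ak) (Rc a₀ b₀ ×ˢ ball z₀ (2 * v)) := by
    have u1 := ux_comp hA.ux (fun x : ℂ × ℂ => x.2) (Rc a₀ b₀ ×ˢ ball z₀ (2 * v))
      (fun x hx => hx.2)
    have u2 := ux_comp hK.ux (fun x : ℂ × ℂ => x) (Rc a₀ b₀ ×ˢ ball z₀ (2 * v))
      (fun x hx => ⟨hVρ hx.1, hx.2⟩)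
    have u3 := Pool.Agent.W303.AX.uxmul _ _ _ _ _ _ u1 u2
    refine ux_eq u3 ?_
    intro N x _
    have e1 : Complex.exp (-(N * (Φ x.2 + sg x.1 x.2))) =
        Complex.exp (-(N * Φ x.2)) * Complex.exp (-(N * sg x.1 x.2)) := by
      rw [← Complex.exp_add]
      congr 1
      ring
    rw [e1]
    ring
  have hd2 : ∀ i, ∀ p ∈ Rc a₀ b₀, DifferentiableOn ℂ
      (fun φ => cv (fun i (x : ℂ × ℂ) => A i x.2) Ak i (p, φ)) (ball z₀ (2 * v)) := by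
    intro i p hp
    simp only [cv]
    exact DifferentiableOn.fun_sum fun i _ => (hA.an i).mul
      (kx_d2 hK (hVρ hp) (fun N => k0_diff N p) ((hsgd p (hVK hp)).mono hvU) _)
  have hnz : ∀ x ∈ Rc a₀ b₀ ×ˢ ball z₀ (2 * v),
      cv (fun i (x : ℂ × ℂ) => A i x.2) Ak 0 x ≠ 0 := by
    intro x hx
    have e1 : cv (fun i (x : ℂ × ℂ) => A i x.2) Ak 0 x = A 0 x.2 * Ak 0 x := by
      simp [cv]
    rw [e1]
    exact mul_ne_zero (hA.nz _ hx.2) (hK.nz x ⟨hVρ hx.1, hx.2⟩)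
  obtain ⟨B, hB0, hB⟩ := hOX a x₁ x₂ y τ₁ hx₂ S.sv.ord.2.1 S.sv.ord.2.2 S.sv.hτ.1 S.sv.hτ.2
    K (Rc a₀ b₀) U hKc hVK S.sv.hU (fun N p w => X N w * ker N w p)
    (fun N p w => XL N w * k0 N p w) (fun p w => Φ w + sg p w) zs
    (fun N => (N : ℂ) ^ (2 * q) * (-1) ^ (N * q) * ((((Real.sqrt N) ^ 3 : ℝ)) : ℂ))
    (fun N p _ => (H.an N).mul (ker_diff N p)) (fun N p _ => (H.anL N).mul (k0_diff N p))
    (fun p hp => H.Fan.add (hsgd p hp)) hcont (hzs.mono hK2) hmw hpt hbd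
    (fun ε hε => nn_ev q 3 hε) (ball z₀ (2 * v)) (cv (fun i (x : ℂ × ℂ) => A i x.2) Ak)
    isOpen_ball hvU hzm hux hd2 hnz
  have hBux : UX (fun N z => (N : ℂ) ^ (2 * (q + 1)) * (-1) ^ (N * (q + 1)) *
      Complex.exp (-(N * F z)) * stp a X N z) B (Rc a₀ b₀) := by
    refine ux_eq hB ?_
    intro N p hp
    have hp2 := hK2 (hVK hp)
    rw [stp_eq, Hc.val p hp2]
    have e2 := sq4 N
    have e3 : (N : ℂ) ^ (2 * (q + 1)) = (N : ℂ) ^ (2 * q) * (N : ℂ) ^ 2 := by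
      rw [← pow_add]
      congr 1
    have e4 : (-1 : ℂ) ^ (N * (q + 1)) = (-1) ^ (N * q) * (-1) ^ N := by
      rw [← pow_add]
      congr 1
    rw [e3, e4, ← e2]
    ring
  refine ⟨B, hBux, ?_, hB0⟩
  refine Pool.Agent.W303.AX.uxan _ _ _ (Rc_open a₀ b₀) (Eventually.of_forall fun N => ?_) hBux
  obtain ⟨st1, st2⟩ := Pool.Agent.W398.HT.t_STPE a X H.an
  have hFd : DifferentiableOn ℂ F (Rc a₀ b₀) := Hc.Fd.mono (hVK.trans hK2)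
  exact ((hFd.const_mul _).neg.cexp.const_mul _).mul (st1 N).differentiableOn

end

/-- the expansion at the root -/
theorem root_ux (hOX : S_OUTX) (hS : S_SF) {n : ℕ} {a : ℤ} {z₀ : ℂ} {x₁ x₂ y τ₁ δ m : ℝ}
    {U : Set ℂ} (hV : SV n a z₀ x₁ x₂ y τ₁ δ m U) {G : ℂ → ℂ} {f : ℂ} {e μ : ℝ}
    (hG : DifferentiableOn ℂ G U)
    (hcl : ∀ w ∈ U, ‖G w - f - n * sg 0 w‖ ≤ e) (he : e ≤ μ / 2) (hμ : μ ≤ m / 4) {z : ℂ}
    (hz : |z.im - z₀.im| ≤ δ) (hzr : |z.re| < x₂) (hzU : z ∈ U)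
    (hzV : Vr n a z₀ - μ / 2 ≤ Vr n a z) (hcrit : deriv (qq a G) z = 0)
    (hneg : (deriv (deriv (qq a G)) z).re < 0)
    (hline : ∀ x : ℝ, |x| ≤ x₂ → x ≠ z.re →
      (qq a G (x + z.im * Complex.I)).re < (qq a G z).re)
    {P PL : ℕ → ℂ → ℂ} {B D : ℝ} (hP : ∀ N, Differentiable ℂ (P N))
    (hPL : ∀ N, Differentiable ℂ (PL N)) (hmw : ∀ V ⊆ U, IsCompact V → MW PL G V)
    (hrb : ∀ᶠ N : ℕ in atTop, ∀ x y : ℝ, x₁ ≤ |x| → |x| ≤ π → |y| ≤ τ₁ →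
      ‖PL N (x + y * Complex.I)‖ ≤ Real.exp (N * B))
    (hB : B + |(a : ℝ)| * τ₁ / 2 < f.re + Vr n a z₀ - μ)
    (hD' : ∀ᶠ N : ℕ in atTop, ∀ x y : ℝ, |x| ≤ π → |y| ≤ 1 / N →
      ‖P N (x + y * Complex.I) - PL N (x + y * Complex.I)‖ ≤ Real.exp (N * D))
    (hD : D < f.re + Vr n a z₀ - μ) {v : ℝ} (hvU : ball z₀ (2 * v) ⊆ U)
    (hzv : z ∈ ball z₀ (2 * v)) {q : ℕ} {A : ℕ → ℂ → ℂ}
    (hA : GXG (ball z₀ (2 * v)) q PL G A) :
    ∃ y' : ℕ → ℂ, y' 0 ≠ 0 ∧ UX (fun N (_ : Unit) => (N : ℂ) ^ (2 * q) * (Real.sqrt N : ℂ) *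
        (-1) ^ (N * (q + 1)) * Complex.exp (-(N * qq a G z)) *
          upp (1 / N) fun φ => Ea a N φ * P N φ * kr N φ)
      (fun k _ => y' k) Set.univ := by
  obtain ⟨p1, p2, p3⟩ := hV.pth z.im hz
  have hx₂ : 0 < x₂ := lt_of_le_of_lt (abs_nonneg _) hV.ord.1
  have hlow := val_low hS hV hcl he hzU hzV
  obtain ⟨κ, hκ⟩ : ∃ κ : ℝ, κ = min (f.re + Vr n a z₀ - μ - (B + |(a : ℝ)| * τ₁ / 2))
    (f.re + Vr n a z₀ - μ - D) := ⟨_, rfl⟩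
  have hκ0 : 0 < κ := by rw [hκ]; exact lt_min (by linarith) (by linarith)
  have hκ1 : κ ≤ f.re + Vr n a z₀ - μ - (B + |(a : ℝ)| * τ₁ / 2) := by
    rw [hκ]; exact min_le_left _ _
  have hκ2 : κ ≤ f.re + Vr n a z₀ - μ - D := by rw [hκ]; exact min_le_right _ _
  obtain ⟨B', hB0, hB'⟩ := hOX a x₁ x₂ y τ₁ hx₂ hV.ord.2.1 hV.ord.2.2 hV.hτ.1 hV.hτ.2
    {0} {0} U isCompact_singleton subset_rfl hV.hU (fun N _ w => P N w)
    (fun N _ w => PL N w) (fun _ w => G w) (fun _ => z)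
    (fun N => (N : ℂ) ^ (2 * q) * (-1) ^ (N * q) * ((((Real.sqrt N) ^ 0 : ℝ)) : ℂ))
    (fun N _ _ => hP N) (fun N _ _ => hPL N) (fun _ _ => hG)
    (hG.continuousOn.comp continuousOn_snd (fun x hx => hx.2)) continuousOn_const
    (fun ε hε W hW hWc => by
      filter_upwards [hmw W hW hWc ε hε] with N h p _ φ hφ
      exact h φ hφ)
    (fun _ _ => ⟨p1, hzr, p2, hcrit, hneg, path_lt hS hV hcl he hμ hz hzU hzV hline⟩)
    ⟨κ, hκ0, by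
      filter_upwards [hrb] with N h p _ x y hx hx' hy
      refine (h x y hx hx' hy).trans (Real.exp_le_exp.2 ?_)
      apply mul_le_mul_of_nonneg_left _ (Nat.cast_nonneg N)
      linarith, by
      filter_upwards [hD'] with N h p _ x y hx hy
      refine (h x y hx hy).trans (Real.exp_le_exp.2 ?_)
      apply mul_le_mul_of_nonneg_left _ (Nat.cast_nonneg N)
      linarith⟩
    (fun ε hε => nn_ev q 0 hε) (ball z₀ (2 * v)) (fun i (x : ℂ × ℂ) => A i x.2)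
    isOpen_ball hvU (fun _ _ => hzv)
    (by
      have u1 := ux_comp hA.ux (fun x : ℂ × ℂ => x.2) (({0} : Set ℂ) ×ˢ ball z₀ (2 * v))
        (fun x hx => hx.2)
      refine ux_eq u1 ?_
      intro N x _
      simp only [pow_zero, Complex.ofReal_one, mul_one])
    (fun i _ _ => hA.an i) (fun x hx => hA.nz _ hx.2)
  refine ⟨fun k => B' k 0, hB0 0 rfl, ?_⟩
  have u2 := ux_comp hB' (fun _ : Unit => (0 : ℂ)) Set.univ (fun _ _ => rfl)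
  refine ux_eq u2 ?_
  intro N _ _
  have e4 : (-1 : ℂ) ^ (N * (q + 1)) = (-1) ^ (N * q) * (-1) ^ N := by
    rw [← pow_add]
    congr 1
  rw [e4, pow_zero, Complex.ofReal_one]
  ring

/-- **job AX5.** -/
theorem smallx (hE : S_EDK) (hR : S_RB) (hO : S_OUT) (hB : S_OUTB) (hS : S_SF) (_hG : S_SGP)
    (hX : S_KXS) (hOX : S_OUTX) : S_SMALLX := by
  intro n a z₀ x₁ x₂ y₁ hn hP g hg
  obtain ⟨j, rfl⟩ : ∃ j, n = j + 1 := ⟨n - 1, by omega⟩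
  obtain ⟨o1, o2, o3, o4, o5⟩ := hP.ord
  have hz0 : 0 ≤ z₀.re := hP.zre
  have hπ := Real.pi_gt_three
  have hbet := Pool.Agent.TH563.Z.J365.bet_pos
  have hj : (0 : ℝ) ≤ j := Nat.cast_nonneg j
  have hp1 := hP.p1
  have hp2 := hP.p2
  push_cast at hp1 hp2
  obtain ⟨V₀, hV₀⟩ : ∃ V₀ : ℝ, V₀ = Vr (j + 1) a z₀ := ⟨_, rfl⟩
  rw [← hV₀] at hp1 hp2
  obtain ⟨d₁, hd₁⟩ : ∃ d₁ : ℝ, d₁ = V₀ - (j + 1) * sx x₁ := ⟨_, rfl⟩
  have hd₁0 : 0 < d₁ := by rw [hd₁]; linarith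
  obtain ⟨d₂, hd₂⟩ : ∃ d₂ : ℝ, d₂ = V₀ - j * (2 * bet) := ⟨_, rfl⟩
  have hd₂0 : 0 < d₂ := by rw [hd₂]; linarith
  obtain ⟨ε₂, hε₂⟩ : ∃ ε₂ : ℝ, ε₂ = d₁ / (4 * (j + 1)) := ⟨_, rfl⟩
  have hε₂0 : 0 < ε₂ := by rw [hε₂]; positivity
  have hε₂1 : (j + 1) * ε₂ = d₁ / 4 := by rw [hε₂]; field_simp
  obtain ⟨εR, hεR⟩ : ∃ εR : ℝ, εR = d₂ / 8 := ⟨_, rfl⟩
  have hεR0 : 0 < εR := by rw [hεR]; positivity
  obtain ⟨τa, hτa, rka⟩ := hR.1 x₁ (ε₂ / 2) (by linarith) (by linarith) (by positivity)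
  obtain ⟨τb, hτb, rkb⟩ := hR.2 εR hεR0
  obtain ⟨τR, hτR⟩ : ∃ τR : ℝ, τR = min τa τb := ⟨_, rfl⟩
  have hτR0 : 0 < τR := by rw [hτR]; exact lt_min hτa hτb
  have hτRa : τR ≤ τa := by rw [hτR]; exact min_le_left _ _
  have hτRb : τR ≤ τb := by rw [hτR]; exact min_le_right _ _
  have rk1 : RK1 x₁ τR (ε₂ / 2) := by
    filter_upwards [rka] with N h x y x' y' h1 h2 h3 h4 h5
    exact (h x y x' y' h1 h2 (h3.trans hτRa) h4 (h5.trans hτRa)).2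
  have rk2 : RK2 τR εR := by
    filter_upwards [rkb] with N h x y x' y' h2 h3 h4 h5
    exact h x y x' y' h2 (h3.trans hτRb) h4 (h5.trans hτRb)
  obtain ⟨τ₁, hτ₁⟩ : ∃ τ₁ : ℝ, τ₁ = min τR (min (y₁ / 2) (d₁ / (2 * (|(a : ℝ)| + 1)))) := ⟨_, rfl⟩
  have ha0 : 0 ≤ |(a : ℝ)| := abs_nonneg _
  have hτ₁0 : 0 < τ₁ := by
    rw [hτ₁]
    exact lt_min hτR0 (lt_min (by positivity) (by positivity))
  have hτ₁R : τ₁ ≤ τR := by rw [hτ₁]; exact min_le_left _ _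
  have hτ₁y : τ₁ < y₁ := by
    have : τ₁ ≤ y₁ / 2 := by rw [hτ₁]; exact (min_le_right _ _).trans (min_le_left _ _)
    linarith
  have hτ₁d : |(a : ℝ)| * τ₁ / 2 ≤ d₁ / 4 := by
    have h1 : τ₁ ≤ d₁ / (2 * (|(a : ℝ)| + 1)) := by
      rw [hτ₁]; exact (min_le_right _ _).trans (min_le_right _ _)
    rw [le_div_iff₀ (by positivity)] at h1
    nlinarith
  obtain ⟨Q, δ, m, hQc, hQG, hδ, hm, hτδ, hseg, hpth⟩ := path_data hS hP hτ₁0 hτ₁y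
  -- the disc of the expansions
  obtain ⟨ρ₂, w₀, Ak, hw₀, hwG, hKX⟩ := hX z₀ hP.zG
  obtain ⟨v, hv⟩ : ∃ v : ℝ, v = min g (w₀ / 3) := ⟨_, rfl⟩
  have hv0 : 0 < v := by rw [hv]; exact lt_min hg (by positivity)
  have hvg : v ≤ g := by rw [hv]; exact min_le_left _ _
  have hvw : 2 * v < w₀ := by
    have : v ≤ w₀ / 3 := by rw [hv]; exact min_le_right _ _
    linarith
  have hKX' : KXG ρ₂ ρ₂ (ball z₀ (2 * v)) k0 sg Ak :=
    kx_mono hKX isOpen_ball (ball_subset_ball hvw.le)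
  have hcbG : closedBall z₀ (2 * v) ⊆ GG := (closedBall_subset_ball hvw).trans hwG
  obtain ⟨U, ρ, τ, κ, c, C, hQU', hUG, hρg, hED⟩ := hE (Q ∪ closedBall z₀ (2 * v))
    (hQc.union (isCompact_closedBall _ _)) (Set.union_subset hQG hcbG) g hg
  have hQU : Q ⊆ U := Set.subset_union_left.trans hQU'
  have hvU : closedBall z₀ (2 * v) ⊆ U := Set.subset_union_right.trans hQU'
  have hvU' : ball z₀ (2 * v) ⊆ U := ball_subset_closedBall.trans hvU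
  obtain ⟨μ, hμ⟩ : ∃ μ : ℝ, μ = min (m / 4) (min (d₁ / 8) (d₂ / 8)) := ⟨_, rfl⟩
  have hμ0 : 0 < μ := by
    rw [hμ]; exact lt_min (by positivity) (lt_min (by positivity) (by positivity))
  have hμa : μ ≤ m / 4 := by rw [hμ]; exact min_le_left _ _
  have hμb : μ ≤ d₁ / 8 := by rw [hμ]; exact (min_le_right _ _).trans (min_le_left _ _)
  have hμc : μ ≤ d₂ / 8 := by rw [hμ]; exact (min_le_right _ _).trans (min_le_right _ _)
  have hzabs : |z₀.re| < x₂ := by rw [abs_of_nonneg hz0]; exact o1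
  have hSV : SV (j + 1) a z₀ x₁ x₂ (y₁ - δ) τ₁ δ m U :=
    { hU := hED.hU, UG := hUG, ord := ⟨hzabs, o2, by linarith⟩, hτ := ⟨hτ₁0, hτδ⟩, hδ := hδ,
      hm := hm, seg := fun x hx => hQU (hseg x hx),
      pth := fun y₂ hy₂ => ⟨(hpth y₂ hy₂).1, (hpth y₂ hy₂).2.1.trans hQU, (hpth y₂ hy₂).2.2⟩ }
  have hz₀U : z₀ ∈ U := by
    have := hSV.seg z₀.re hzabs.le
    rwa [Complex.re_add_im] at this
  -- continuity of the value
  obtain ⟨r₀, hr₀, hr₀1⟩ : ∃ r₀ : ℝ, 0 < r₀ ∧ ∀ z : ℂ, ‖z - z₀‖ < r₀ →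
      V₀ - μ / 2 < Vr (j + 1) a z := by
    have h1 : ContinuousAt (Vr (j + 1) a) z₀ :=
      (Vr_cont hS (j + 1) a).continuousAt (GG_open.mem_nhds (hUG hz₀U))
    have h2 : ∀ᶠ z in 𝓝 z₀, V₀ - μ / 2 < Vr (j + 1) a z :=
      h1.eventually_const_lt (by rw [← hV₀]; linarith)
    obtain ⟨r₀, hr₀, h3⟩ := Metric.eventually_nhds_iff.1 h2
    exact ⟨r₀, hr₀, fun z hz => h3 (by rwa [dist_eq_norm])⟩
  obtain ⟨r₁, hr₁⟩ : ∃ r₁ : ℝ, r₁ = min (min v (r₀ / 2)) (min δ ((x₂ - |z₀.re|) / 2)) := ⟨_, rfl⟩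
  have hr₁0 : 0 < r₁ := by
    rw [hr₁]
    exact lt_min (lt_min hv0 (by positivity)) (lt_min hδ (by linarith))
  have hr₁g : r₁ ≤ v := by rw [hr₁]; exact (min_le_left _ _).trans (min_le_left _ _)
  have hr₁r : r₁ ≤ r₀ / 2 := by rw [hr₁]; exact (min_le_left _ _).trans (min_le_right _ _)
  have hr₁δ : r₁ ≤ δ := by rw [hr₁]; exact (min_le_right _ _).trans (min_le_left _ _)
  have hr₁x : r₁ ≤ (x₂ - |z₀.re|) / 2 := by
    rw [hr₁]; exact (min_le_right _ _).trans (min_le_right _ _)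
  have hnear : ∀ z : ℂ, ‖z - z₀‖ ≤ r₁ → |z.im - z₀.im| ≤ δ ∧ |z.re| < x₂ ∧
      Vr (j + 1) a z₀ - μ / 2 ≤ Vr (j + 1) a z := by
    intro z hz
    refine ⟨?_, ?_, ?_⟩
    · have := (Complex.abs_im_le_norm _).trans hz
      rw [Complex.sub_im] at this
      exact this.trans hr₁δ
    · have h1 := (Complex.abs_re_le_norm _).trans hz
      rw [Complex.sub_re] at h1
      have h2 : |z.re| ≤ |z.re - z₀.re| + |z₀.re| := by
        have := abs_add_le (z.re - z₀.re) z₀.re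
        rwa [sub_add_cancel] at this
      linarith
    · rw [← hV₀]
      exact (hr₀1 z (by linarith)).le
  -- the potential
  have hτ0 := hED.hτ.1
  have hρτ := hED.hτ.2
  have hsubR : Rc (3 * τ) (3 * τ) ⊆ Rc (3 * ρ) (3 * τ) := Rc_le (by linarith) le_rfl
  have hgd : DifferentiableOn ℂ (gt a) U := fun w _ =>
    (gt_der a w).differentiableAt.differentiableWithinAt
  have hSP : SP (3 * τ) c C U sg :=
    { hr := by positivity, hC := hED.hC, hU := hED.hU,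
      san := hED.san.mono (Set.prod_mono hsubR subset_rfl),
      sbd := fun ψ hψ => hED.sbd ψ (hsubR hψ), ev := fun ψ hψ => hED.ev ψ (hsubR hψ),
      conc1 := fun ψ hψ => hED.conc ψ (hsubR hψ) }
  have hcr0 := pot_crit hS hP
  have hng0 := pot_neg hS (by omega) hP
  have hln0 := pot_line hS hP
  push_cast at hcr0 hng0 hln0
  obtain ⟨ε₁c, r₂c, C₁, hε₁c, hr₂c, hr₂c', hC₁, hCG⟩ := hcg (3 * τ) c C U sg (gt a) j z₀ x₂
    (by positivity) hED.hc hED.hU hSP.san hSP.sbd hSP.ev hSP.conc1 hgd hzabs hSV.seg hcr0 hng0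
    hln0 r₁ hr₁0
  have hσ0 : DifferentiableOn ℂ (fun w => ((j : ℂ) + 1) * sg 0 w) U := by
    have h1 : DifferentiableOn ℂ (fun w => sg 0 w) U := fun w hw =>
      (d2 hSP (half_sub hSP (zero_half hSP)) hw).differentiableAt.differentiableWithinAt
    exact h1.const_mul _
  obtain ⟨ε₁r, hε₁r, hCR⟩ := hcr U (gt a) (fun w => ((j : ℂ) + 1) * sg 0 w) z₀ x₂ hED.hU hgd hσ0
    hzabs hSV.seg hcr0 hng0 hln0 r₁ hr₁0
  obtain ⟨L, hL⟩ : ∃ L : ℝ, L = C / (3 * τ / 4) := ⟨_, rfl⟩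
  have hL0 : 0 < L := by rw [hL]; have := hED.hC; positivity
  obtain ⟨r₂, hr₂⟩ : ∃ r₂ : ℝ, r₂ = min (min r₂c ρ₂) (min (min ρ τ) (min τR (μ / (8 * L)))) :=
    ⟨_, rfl⟩
  have hr₂0 : 0 < r₂ := by
    rw [hr₂]
    exact lt_min (lt_min hr₂c hKX.hρ)
      (lt_min (lt_min hED.hρ.1 hτ0) (lt_min hτR0 (by positivity)))
  have hr₂1 : r₂ ≤ r₂c := by rw [hr₂]; exact (min_le_left _ _).trans (min_le_left _ _)
  have hr₂ρ : r₂ ≤ ρ₂ := by rw [hr₂]; exact (min_le_left _ _).trans (min_le_right _ _)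
  have hr₂2 : r₂ ≤ ρ := by
    rw [hr₂]; exact (min_le_right _ _).trans ((min_le_left _ _).trans (min_le_left _ _))
  have hr₂3 : r₂ ≤ τ := by
    rw [hr₂]; exact (min_le_right _ _).trans ((min_le_left _ _).trans (min_le_right _ _))
  have hr₂4 : r₂ ≤ τR := by
    rw [hr₂]; exact (min_le_right _ _).trans ((min_le_right _ _).trans (min_le_left _ _))
  have hr₂5 : L * (2 * r₂) ≤ μ / 4 := by
    have h1 : r₂ ≤ μ / (8 * L) := by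
      rw [hr₂]; exact (min_le_right _ _).trans ((min_le_right _ _).trans (min_le_right _ _))
    rw [le_div_iff₀ (by positivity)] at h1
    linarith
  have hlip : ∀ ψ ∈ Rc r₂ r₂, ∀ w ∈ U, ‖sg ψ w - sg 0 w‖ ≤ L * ‖ψ‖ := by
    intro ψ hψ w hw
    rw [hL]
    exact lip1 hSP (Rc_le (by linarith) (by linarith) hψ) hw
  obtain ⟨ε₁, hε₁⟩ : ∃ ε₁ : ℝ, ε₁ = min (min ε₁c ε₁r) (μ / 4) / (j + 1) := ⟨_, rfl⟩
  have hε₁0 : 0 < ε₁ := by
    rw [hε₁]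
    have : 0 < min (min ε₁c ε₁r) (μ / 4) := lt_min (lt_min hε₁c hε₁r) (by positivity)
    positivity
  have hε₁1 : (j + 1) * ε₁ = min (min ε₁c ε₁r) (μ / 4) := by rw [hε₁]; field_simp
  have hε₁2 : (j + 1) * ε₁ ≤ ε₁c := by
    rw [hε₁1]; exact (min_le_left _ _).trans (min_le_left _ _)
  have hε₁3 : (j + 1) * ε₁ ≤ ε₁r := by
    rw [hε₁1]; exact (min_le_left _ _).trans (min_le_right _ _)
  have hε₁4 : (j + 1) * ε₁ ≤ μ / 4 := by rw [hε₁1]; exact min_le_right _ _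
  have hSC : SC j a z₀ x₁ x₂ (y₁ - δ) τ₁ δ m ρ τ κ c C μ ε₁ ε₂ εR τR r₁ r₂ L U :=
    { sv := hSV, ed := hED, hμ := ⟨hμ0, hμa⟩, hε₁ := by linarith, hε₂ := hε₂0, hεR := hεR0,
      near := hnear, d1 := by rw [← hV₀]; linarith, d2 := by rw [← hV₀]; linarith,
      hL := hlip, hL0 := hL0, hL1 := hr₂5, rk1 := rk1, rk2 := rk2, hτR := ⟨hτR0, hτ₁R⟩,
      hr₂ := ⟨hr₂0, hr₂4, hr₂2, hr₂3⟩ }
  refine ⟨U, v, τ₁, ε₁, ε₂, ρ, τ, κ, c, C, ρ₂, Ak, hv0, hvg, hvU, hτ₁0, hε₁0, hε₂0, hUG, hED,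
    ?_, hKX', ?_, ?_⟩
  · filter_upwards [rk1, inv_ev' hτR0] with N h1 h2 x y x' y' g1 g2 g3 g4 g5
    exact h1 x y x' y' g1 g2 (g3.trans hτ₁R) g4 (g5.trans h2)
  · refine ⟨r₂, c / 2, C₁, hr₂0, hr₂2, hr₂3, hr₂ρ, by have := hED.hc; positivity, hC₁, ?_⟩
    intro a₀ b₀ hb₀ hba ha₀
    have ha₀0 : 0 < a₀ := lt_of_lt_of_le hb₀ hba
    obtain ⟨κ', hκ'⟩ : ∃ κ' : ℝ, κ' = min κ (c / 4 * a₀ ^ 2) := ⟨_, rfl⟩
    have hc := hED.hc
    have hκ'0 : 0 < κ' := by rw [hκ']; exact lt_min hED.hκ.1 (by positivity)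
    have hκ'1 : κ' ≤ κ := by rw [hκ']; exact min_le_left _ _
    have hκ'2 : κ' < c / 2 * a₀ ^ 2 := by
      have h1 : κ' ≤ c / 4 * a₀ ^ 2 := by rw [hκ']; exact min_le_right _ _
      have h2 : 0 < c * a₀ ^ 2 := by positivity
      linarith
    have hres := ed_restrict hED (ρ' := a₀) (τ' := b₀) (κ' := κ') ha₀0 (by linarith) hb₀
      (by linarith) hba hκ'0 hκ'1 hκ'2
    refine ⟨min κ' μ, lt_min hκ'0 hμ0, ?_⟩
    intro X XL f Φ H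
    rw [Nat.add_sub_cancel] at H
    obtain ⟨F, zs, c1, c2, c3, c4, c5⟩ := hCG f Φ H.Fan (fun φ hφ => (H.cl φ hφ).trans
      (by linarith))
    have hm2 : Rc r₂ r₂ ⊆ Rc r₂c r₂c := Rc_le hr₂1 hr₂1
    have hHC : HCS a U z₀ x₂ r₁ r₂ c C₁ Φ F zs :=
      { Fd := c1.mono hm2
        ev := fun ψ hψ => c3 ψ (hm2 hψ)
        dd := fun ψ hψ => c4 ψ (hm2 hψ)
        near := fun ψ hψ => ⟨(c5 ψ (hm2 hψ)).1, (c5 ψ (hm2 hψ)).2.1⟩
        crit := fun ψ hψ => (c5 ψ (hm2 hψ)).2.2.1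
        neg := fun ψ hψ => (c5 ψ (hm2 hψ)).2.2.2.1
        line := fun ψ hψ x hx hne => ((c5 ψ (hm2 hψ)).2.2.2.2.1 x hx).2 hne
        val := fun ψ hψ => (c5 ψ (hm2 hψ)).2.2.2.2.2.1
        der := fun ψ hψ => (c5 ψ (hm2 hψ)).2.2.2.2.2.2 }
    have hmin1 := min_le_left κ' μ
    have hmin2 := min_le_right κ' μ
    refine ⟨F, zs, child_gv hSC H hHC hO hB hS hbet hb₀ hba ha₀ hres.far (by linarith)
      (by linarith), ?_, ?_⟩
    · intro q A hA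
      exact child_gx hOX hS hSC H hHC (c2.continuousOn.mono hm2) hKX' hv0 hvU' hr₁g hr₂ρ
        (by linarith) (by linarith) hA
    intro ψ hψ
    have hψ2 : ψ ∈ Rc r₂ r₂ := Rc_le ha₀ (by linarith) hψ
    have hψ3 : ψ ∈ Rc (3 * τ) (3 * τ) := Rc_le (by linarith) (by linarith) hψ2
    obtain ⟨n1, n2⟩ := hHC.near ψ hψ2
    refine ⟨n1.trans hr₁g, n2, ?_, ?_, hHC.der ψ hψ2⟩
    · have h1 := hHC.crit ψ hψ2
      rw [qq_gt] at h1
      have h2 : HasDerivAt (fun w => gt a w + (Φ w + sg ψ w)) _ (zs ψ) :=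
        (gt_der a (zs ψ)).add ((H.Fan.differentiableAt (hED.hU.mem_nhds n2)).hasDerivAt.add
          (d2 hSP hψ3 n2))
      rw [h2.deriv] at h1
      rw [(d2 hSP hψ3 n2).deriv, ← h1]
      ring
    · rw [hHC.val ψ hψ2]
      unfold qq
      ring
  · intro X XL f Φ H
    have hcl : ∀ w ∈ U, ‖Φ w - f - ((j + 1 : ℕ) : ℂ) * sg 0 w‖ ≤ μ / 2 := by
      intro w hw
      have := H.cl w hw
      push_cast at this ⊢
      linarith
    obtain ⟨z, z1, z2, z3, z4, z5⟩ := hCR f Φ H.Fan (fun φ hφ => by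
      have := H.cl φ hφ
      push_cast at this
      linarith)
    obtain ⟨q3, q4, q5⟩ := hnear z z1
    have hrB : f.re + ((j + 1 : ℕ) : ℝ) * (sx x₁ + ε₂) + |(a : ℝ)| * τ₁ / 2 <
        f.re + Vr (j + 1) a z₀ - μ := by
      rw [← hV₀]
      push_cast
      linarith
    have hrD : f.re + (((j + 1 : ℕ) : ℝ) - 1) * (2 * bet) + εR <
        f.re + Vr (j + 1) a z₀ - μ := by
      rw [← hV₀]
      push_cast
      linarith
    have hgl : ∀ᶠ N : ℕ in atTop, ∀ x y : ℝ, |x| ≤ π → |y| ≤ 1 / N →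
        ‖X N (x + y * Complex.I) - XL N (x + y * Complex.I)‖ ≤
          Real.exp (N * (f.re + (((j + 1 : ℕ) : ℝ) - 1) * (2 * bet) + εR)) := by
      filter_upwards [H.gl εR hεR0] with N h x y hx hy
      exact (h x y hx hy).2.2
    refine ⟨z, z1.trans hr₁g, z2, ?_, ?_, ?_⟩
    · have h2 : HasDerivAt (fun w => gt a w + Φ w) _ z :=
        (gt_der a z).add (H.Fan.differentiableAt (hED.hU.mem_nhds z2)).hasDerivAt
      rw [h2.deriv] at z3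
      exact z3
    · exact out_lim hO hS hSV (G := Φ) (f := f) (e := μ / 2) (μ := μ) H.Fan hcl le_rfl hμa q3 q4
        z2 q5 z3 z4 (fun x hx hne => (z5 x hx).2 hne) H.an H.anL H.mw H.rb hrB hgl hrD
    · intro q A hA
      exact root_ux hOX hS hSV (G := Φ) (f := f) (e := μ / 2) (μ := μ) H.Fan hcl le_rfl hμa q3 q4
        z2 q5 z3 z4 (fun x hx hne => (z5 x hx).2 hne) H.an H.anL H.mw H.rb hrB hgl hrD hvU'
        (by
          rw [mem_ball, dist_eq_norm]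
          linarith) hA

end Pool.Agent.N499.AX
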